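import Pool.Agent.H72.VP.Stm

/-!
# Cube-free v-palindromes, row 5: arithmetic
-/

set_option autoImplicit false

namespace Pool.Agent.H72.VP

theorem arith_prime_337 : Nat.Prime 337 := by norm_num

theorem arith_prime_367 : Nat.Prime 367 := by norm_num

theorem arith_fac {a b m : ℕ} (ha : a.Prime) (hb : b.Prime) (hm : m ≠ 0) (p : ℕ) :
    (a * b * m).factorization p =
      (if p = a then 1 else 0) + (if p = b then 1 else 0) + m.factorization p := by
  rw [Nat.factorization_mul (Nat.mul_ne_zero ha.ne_zero hb.ne_zero) hm,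
    Nat.factorization_mul ha.ne_zero hb.ne_zero, ha.factorization, hb.factorization]
  simp only [Finsupp.coe_add, Pi.add_apply, Finsupp.single_apply]
  congr 2
  · by_cases h : a = p
    · rw [if_pos h, if_pos h.symm]
    · rw [if_neg h, if_neg (Ne.symm h)]
  · by_cases h : b = p
    · rw [if_pos h, if_pos h.symm]
    · rw [if_neg h, if_neg (Ne.symm h)]

theorem arith_mod3 {m : ℕ} (hg : m ≡ 337 * 367 [MOD MM]) : m % 3 = 1 := by
  have hd : 3 ∣ MM := ⟨337 ^ 2 * 367 ^ 2, by simp only [MM]; ring⟩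
  have h := hg.of_dvd hd
  rw [Nat.ModEq] at h
  rw [h]

theorem arith_mod337 {m : ℕ} (hg : m ≡ 337 * 367 [MOD MM]) : m % 113569 = 10110 := by
  have hd : 113569 ∣ MM := ⟨3 * 367 ^ 2, by simp only [MM]; norm_num⟩
  have h := hg.of_dvd hd
  rw [Nat.ModEq] at h
  rw [h]

theorem arith_mod367 {m : ℕ} (hg : m ≡ 337 * 367 [MOD MM]) : m % 134689 = 123679 := by
  have hd : 134689 ∣ MM := ⟨3 * 337 ^ 2, by simp only [MM]; norm_num⟩
  have h := hg.of_dvd hd
  rw [Nat.ModEq] at h
  rw [h]

theorem arith_ge7 {p : ℕ} (hp : p.Prime) (h2 : p ≠ 2) (h3 : p ≠ 3) (h5 : p ≠ 5) : 7 ≤ p := by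
  have := hp.two_le
  by_contra hcon
  push Not at hcon
  rcases (by omega : p = 4 ∨ p = 6) with rfl | rfl
  · exact absurd hp (by norm_num)
  · exact absurd hp (by norm_num)

theorem arith_nd2 {m : ℕ} (h : m % 10 = 1) : ¬ 2 ∣ m := by omega

theorem arith_nd5 {m : ℕ} (h : m % 10 = 1) : ¬ 5 ∣ m := by omega

theorem arith_nd3 {m : ℕ} (h : m % 3 = 1) : ¬ 3 ∣ m := by omega

theorem arith_nd {m q r : ℕ} (h : m % q = r) (hr : r ≠ 0) : ¬ q ∣ m := by
  intro hd
  exact hr (h ▸ Nat.mod_eq_zero_of_dvd hd)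

theorem arith_d {m q r a : ℕ} (h : m % q = r) (hq : a ∣ q) (hr : a ∣ r) : a ∣ m := by
  rw [← Nat.div_add_mod m q, h]
  exact Nat.dvd_add (Dvd.dvd.mul_right hq _) hr

theorem arith_one {m p : ℕ} (hp : p.Prime) (hm0 : m ≠ 0) (h1 : p ∣ m) (h2 : ¬ p ^ 2 ∣ m) :
    m.factorization p = 1 := by
  apply le_antisymm
  · by_contra hcon
    push Not at hcon
    exact h2 ((hp.pow_dvd_iff_le_factorization hm0).mpr hcon)
  · exact (hp.dvd_iff_one_le_factorization hm0).mp h1

/-- the consequences of the congruence -/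
theorem arith_local {m : ℕ} (hg : m ≡ 337 * 367 [MOD MM]) (h10 : m % 10 = 1) :
    m ≠ 0 ∧ m.factorization 2 = 0 ∧ m.factorization 3 = 0 ∧ m.factorization 5 = 0 ∧
      m.factorization 337 = 1 ∧ m.factorization 367 = 1 := by
  have hm0 : m ≠ 0 := by
    rintro rfl
    norm_num at h10
  have h3 : m % 3 = 1 := arith_mod3 hg
  have h337 : m % 113569 = 10110 := arith_mod337 hg
  have h367 : m % 134689 = 123679 := arith_mod367 hg
  have a1 : 337 ∣ m := arith_d h337 ⟨337, by norm_num⟩ ⟨30, by norm_num⟩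
  have a2 : 367 ∣ m := arith_d h367 ⟨367, by norm_num⟩ ⟨337, by norm_num⟩
  have a3 : ¬ 337 ^ 2 ∣ m := by
    rw [show (337 : ℕ) ^ 2 = 113569 by norm_num]
    exact arith_nd h337 (by norm_num)
  have a4 : ¬ 367 ^ 2 ∣ m := by
    rw [show (367 : ℕ) ^ 2 = 134689 by norm_num]
    exact arith_nd h367 (by norm_num)
  exact ⟨hm0, Nat.factorization_eq_zero_of_not_dvd (arith_nd2 h10),
    Nat.factorization_eq_zero_of_not_dvd (arith_nd3 h3),
    Nat.factorization_eq_zero_of_not_dvd (arith_nd5 h10),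
    arith_one arith_prime_337 hm0 a1 a3, arith_one arith_prime_367 hm0 a2 a4⟩

/-- the exponents of `m` -/
theorem arith_exp {m : ℕ} (hg : Good m) (h10 : m % 10 = 1) {p : ℕ} (hp : p.Prime) :
    m.factorization p ≤ (if p = 337 ∨ p = 367 then 1 else if p = 3 then 0 else 2) := by
  obtain ⟨hm0, h2, h3, h5, h337, h367⟩ := arith_local hg.1 h10
  by_cases e1 : p = 337
  · rw [if_pos (Or.inl e1), e1, h337]
  by_cases e2 : p = 367
  · rw [if_pos (Or.inr e2), e2, h367]
  by_cases e3 : p = 3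
  · rw [if_neg (fun h => h.elim e1 e2), if_pos e3, e3, h3]
  rw [if_neg (fun h => h.elim e1 e2), if_neg e3]
  by_cases e4 : p = 2
  · rw [e4, h2]
    exact Nat.zero_le _
  by_cases e5 : p = 5
  · rw [e5, h5]
    exact Nat.zero_le _
  have h7 : 7 ≤ p := arith_ge7 hp e4 e3 e5
  by_contra hcon
  push Not at hcon
  exact hg.2 p hp h7 e1 e2 ((hp.pow_dvd_iff_le_factorization hm0).mpr hcon)

theorem arith_cube {m b : ℕ} (hg : Good m) (h10 : m % 10 = 1) (hb : b = 337 ∨ b = 367) :
    CubeFree (3 * b * m) := by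
  obtain ⟨hm0, h2, h3, h5, h337, h367⟩ := arith_local hg.1 h10
  have hbp : b.Prime := by
    rcases hb with rfl | rfl
    · exact arith_prime_337
    · exact arith_prime_367
  intro p hp hdvd
  have h1 := (hp.pow_dvd_iff_le_factorization
    (Nat.mul_ne_zero (Nat.mul_ne_zero (by norm_num) hbp.ne_zero) hm0)).mp hdvd
  rw [arith_fac Nat.prime_three hbp hm0] at h1
  have h4 := arith_exp hg h10 hp
  generalize m.factorization p = w at h1 h4
  clear hg h10 hm0 h2 h3 h5 h337 h367 hdvd hbp hp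
  have hb7 : b ≠ 3 := by omega
  have hb8 : p = b → (p = 337 ∨ p = 367) := by omega
  split_ifs at h1 h4 <;> omega

theorem arith_primeFactors {m b : ℕ} (hm0 : m ≠ 0) (hbp : b.Prime) (hb : b ∣ m) :
    (3 * b * m).primeFactors = insert 3 m.primeFactors := by
  have h3b : 3 * b ≠ 0 := Nat.mul_ne_zero (by norm_num) hbp.ne_zero
  rw [Nat.primeFactors_mul h3b hm0, Nat.primeFactors_mul (by norm_num) hbp.ne_zero,
    Nat.prime_three.primeFactors, hbp.primeFactors]
  ext p
  simp only [Finset.mem_union, Finset.mem_singleton, Finset.mem_insert, Nat.mem_primeFactors]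
  constructor
  · rintro ((h | h) | h)
    · exact Or.inl h
    · subst h
      exact Or.inr ⟨hbp, hb, hm0⟩
    · exact Or.inr h
  · rintro (h | h)
    · exact Or.inl (Or.inl h)
    · exact Or.inr h

theorem arith_vfun {m : ℕ} (hg : Good m) (h10 : m % 10 = 1) :
    vfun (3 * 337 * m) = vfun (3 * 367 * m) := by
  obtain ⟨hm0, h2, h3, h5, h337, h367⟩ := arith_local hg.1 h10
  have d1 : 337 ∣ m := Nat.dvd_of_factorization_pos (by rw [h337]; exact one_ne_zero)
  have d2 : 367 ∣ m := Nat.dvd_of_factorization_pos (by rw [h367]; exact one_ne_zero)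
  clear h10
  unfold vfun
  rw [arith_primeFactors hm0 arith_prime_337 d1, arith_primeFactors hm0 arith_prime_367 d2]
  have m1 : 337 ∈ insert 3 m.primeFactors := by
    rw [Finset.mem_insert, Nat.mem_primeFactors]
    exact Or.inr ⟨arith_prime_337, d1, hm0⟩
  have m2 : 367 ∈ (insert 3 m.primeFactors).erase 337 := by
    rw [Finset.mem_erase, Finset.mem_insert, Nat.mem_primeFactors]
    exact ⟨by norm_num, Or.inr ⟨arith_prime_367, d2, hm0⟩⟩
  rw [← Finset.add_sum_erase _ _ m1, ← Finset.add_sum_erase _ _ m2,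
    ← Finset.add_sum_erase _ _ m1, ← Finset.add_sum_erase _ _ m2]
  rw [arith_fac Nat.prime_three arith_prime_337 hm0 337,
    arith_fac Nat.prime_three arith_prime_337 hm0 367,
    arith_fac Nat.prime_three arith_prime_367 hm0 337,
    arith_fac Nat.prime_three arith_prime_367 hm0 367, h337, h367]
  have hrest : ∀ p ∈ ((insert 3 m.primeFactors).erase 337).erase 367,
      (p + if 2 ≤ (3 * 337 * m).factorization p then (3 * 337 * m).factorization p else 0) =
      (p + if 2 ≤ (3 * 367 * m).factorization p then (3 * 367 * m).factorization p else 0) := by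
    intro p hp
    rw [Finset.mem_erase, Finset.mem_erase] at hp
    rw [arith_fac Nat.prime_three arith_prime_337 hm0 p,
      arith_fac Nat.prime_three arith_prime_367 hm0 p, if_neg hp.2.1, if_neg hp.1]
  rw [Finset.sum_congr rfl hrest]
  norm_num
  ring

theorem arithP : SArith := by
  intro m hg h10
  have e1 : 1011 * m = 3 * 337 * m := by norm_num
  have e2 : 1101 * m = 3 * 367 * m := by norm_num
  rw [e1, e2]
  exact ⟨arith_cube hg h10 (Or.inl rfl), arith_cube hg h10 (Or.inr rfl), arith_vfun hg h10⟩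

end Pool.Agent.H72.VP
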