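import Pool.Agent.H72.VP.Stm

set_option autoImplicit false

namespace Pool.Agent.H72.VP

theorem cnt_eq (S : Finset (List (List ℕ))) (P : List (List ℕ) → Prop) [DecidablePred P] :
    cnt S P = (S.filter P).card := by
  unfold cnt
  congr!

theorem cnt_le_card (S : Finset (List (List ℕ))) (P : List (List ℕ) → Prop) :
    cnt S P ≤ S.card := by
  classical
  rw [cnt_eq]; exact Finset.card_filter_le _ _

theorem cnt_mono {S : Finset (List (List ℕ))} {P Q : List (List ℕ) → Prop}
    (h : ∀ l ∈ S, P l → Q l) : cnt S P ≤ cnt S Q := by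
  classical
  rw [cnt_eq, cnt_eq]
  apply Finset.card_le_card
  intro l hl
  rw [Finset.mem_filter] at hl ⊢
  exact ⟨hl.1, h l hl.1 hl.2⟩

theorem cnt_congr {S : Finset (List (List ℕ))} {P Q : List (List ℕ) → Prop}
    (h : ∀ l ∈ S, (P l ↔ Q l)) : cnt S P = cnt S Q :=
  le_antisymm (cnt_mono fun l hl => (h l hl).1) (cnt_mono fun l hl => (h l hl).2)

theorem cnt_split (S : Finset (List (List ℕ))) (P Q : List (List ℕ) → Prop) :
    cnt S P ≤ cnt S (fun l => P l ∧ ¬ Q l) + cnt S (fun l => P l ∧ Q l) := by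
  classical
  rw [cnt_eq, cnt_eq, cnt_eq]
  refine (Finset.card_le_card ?_).trans (Finset.card_union_le _ _)
  intro l hl
  rw [Finset.mem_filter] at hl
  rw [Finset.mem_union, Finset.mem_filter, Finset.mem_filter]
  by_cases hq : Q l
  · exact Or.inr ⟨hl.1, hl.2, hq⟩
  · exact Or.inl ⟨hl.1, hl.2, hq⟩

theorem cnt_exists_le {ι : Type} (S : Finset (List (List ℕ))) (I : Finset ι)
    (P : ι → List (List ℕ) → Prop) :
    cnt S (fun l => ∃ i ∈ I, P i l) ≤ ∑ i ∈ I, cnt S (P i) := by
  classical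
  rw [cnt_eq]
  calc (S.filter (fun l => ∃ i ∈ I, P i l)).card
      ≤ (I.biUnion fun i => S.filter (P i)).card := by
        apply Finset.card_le_card
        intro l hl
        rw [Finset.mem_filter] at hl
        obtain ⟨hl, i, hi, hp⟩ := hl
        rw [Finset.mem_biUnion]
        exact ⟨i, hi, Finset.mem_filter.2 ⟨hl, hp⟩⟩
    _ ≤ ∑ i ∈ I, (S.filter (P i)).card := Finset.card_biUnion_le
    _ = ∑ i ∈ I, cnt S (P i) := by
        refine Finset.sum_congr rfl fun i _ => ?_
        rw [cnt_eq]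

theorem cnt_pos {S : Finset (List (List ℕ))} {P : List (List ℕ) → Prop} (h : 0 < cnt S P) :
    ∃ l ∈ S, P l := by
  classical
  rw [cnt_eq, Finset.card_pos] at h
  obtain ⟨l, hl⟩ := h
  rw [Finset.mem_filter] at hl
  exact ⟨l, hl.1, hl.2⟩

theorem mem_seqs_succ {W : Finset (List ℕ)} {n : ℕ} {l : List (List ℕ)} :
    l ∈ seqs W (n + 1) ↔ ∃ x ∈ W, ∃ l' ∈ seqs W n, l = x :: l' := by
  rw [seqs, Finset.mem_image]
  constructor
  · rintro ⟨t, ht, rfl⟩
    rw [Finset.mem_product] at ht
    exact ⟨t.1, ht.1, t.2, ht.2, rfl⟩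
  · rintro ⟨x, hx, l', hl', rfl⟩
    exact ⟨(x, l'), Finset.mem_product.2 ⟨hx, hl'⟩, rfl⟩

theorem cnt_seqs_succ (W : Finset (List ℕ)) (n : ℕ) (P : List (List ℕ) → Prop) :
    cnt (seqs W (n + 1)) P = ∑ x ∈ W, cnt (seqs W n) (fun l => P (x :: l)) := by
  classical
  rw [cnt_eq]
  have h1 : ((seqs W (n + 1)).filter P) =
      ((W ×ˢ seqs W n).filter (fun t => P (t.1 :: t.2))).image (fun t => t.1 :: t.2) := by
    ext l
    rw [Finset.mem_filter, mem_seqs_succ, Finset.mem_image]
    constructor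
    · rintro ⟨⟨x, hx, l', hl', rfl⟩, hP⟩
      exact ⟨(x, l'), Finset.mem_filter.2 ⟨Finset.mem_product.2 ⟨hx, hl'⟩, hP⟩, rfl⟩
    · rintro ⟨t, ht, rfl⟩
      rw [Finset.mem_filter, Finset.mem_product] at ht
      exact ⟨⟨t.1, ht.1.1, t.2, ht.1.2, rfl⟩, ht.2⟩
  rw [h1, Finset.card_image_of_injective, Finset.card_filter, Finset.sum_product]
  · refine Finset.sum_congr rfl fun x _ => ?_
    rw [cnt_eq, Finset.card_filter]
  · rintro ⟨a, b⟩ ⟨c, d⟩ h
    simp only [List.cons.injEq] at h
    exact Prod.ext h.1 h.2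

theorem seqs_card (W : Finset (List ℕ)) (n : ℕ) : (seqs W n).card = W.card ^ n := by
  classical
  induction n with
  | zero => simp [seqs]
  | succ n ih =>
    rw [seqs, Finset.card_image_of_injective, Finset.card_product, ih, pow_succ, mul_comm]
    rintro ⟨a, b⟩ ⟨c, d⟩ h
    simp only [List.cons.injEq] at h
    exact Prod.ext h.1 h.2

theorem seqs_len {W : Finset (List ℕ)} {n : ℕ} : ∀ {l : List (List ℕ)}, l ∈ seqs W n →
    l.length = n ∧ ∀ x ∈ l, x ∈ W := by
  induction n with
  | zero =>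
    intro l hl
    rw [seqs, Finset.mem_singleton] at hl
    subst hl; simp
  | succ n ih =>
    intro l hl
    obtain ⟨x, hx, l', hl', rfl⟩ := mem_seqs_succ.1 hl
    obtain ⟨h1, h2⟩ := ih hl'
    refine ⟨by rw [List.length_cons, h1], ?_⟩
    intro y hy
    rcases List.mem_cons.1 hy with rfl | hy
    · exact hx
    · exact h2 y hy

theorem val_lt {k : ℕ} {x : List ℕ} (hl : x.length = k) (hd : ∀ e ∈ x, e ≤ 9) :
    val x < 10 ^ k := by
  rw [← hl]
  exact Nat.ofDigits_lt_base_pow_length (by norm_num) fun e he => by have := hd e he; omega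

theorem val_rev_lt {k : ℕ} {x : List ℕ} (hl : x.length = k) (hd : ∀ e ∈ x, e ≤ 9) :
    val x.reverse < 10 ^ k :=
  val_lt (by rw [List.length_reverse, hl]) fun e he => hd e (List.mem_reverse.1 he)

theorem val_inj {k : ℕ} {x y : List ℕ} (hx : x.length = k) (hy : y.length = k)
    (hdx : ∀ e ∈ x, e ≤ 9) (hdy : ∀ e ∈ y, e ≤ 9) (h : val x = val y) : x = y :=
  Nat.ofDigits_inj_of_len_eq (by norm_num) (hx.trans hy.symm)
    (fun e he => by have := hdx e he; omega) (fun e he => by have := hdy e he; omega) h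

theorem pow_k_le (k : ℕ) : 10 ^ k ≤ 10 ^ (k + 3) := Nat.pow_le_pow_right (by norm_num) (by omega)

theorem mm_cons (k : ℕ) (x : List ℕ) (l : List (List ℕ)) :
    mm k (x :: l) = val x + 10 ^ (k + 3) * mm k l +
      10 ^ ((k + 3) * (2 * l.length + 1)) * val x.reverse := rfl

theorem mm_lt {k : ℕ} {l : List (List ℕ)} (h : ∀ x ∈ l, x.length = k ∧ ∀ e ∈ x, e ≤ 9) :
    mm k l < 10 ^ ((k + 3) * (2 * l.length)) := by
  induction l with
  | nil => simp [mm]
  | cons x l ih =>
    have h1 := ih fun y hy => h y (List.mem_cons_of_mem _ hy)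
    have h2 := h x List.mem_cons_self
    have h3 : val x < 10 ^ (k + 3) := (val_lt h2.1 h2.2).trans_le (pow_k_le k)
    have h4 : val x.reverse < 10 ^ (k + 3) := (val_rev_lt h2.1 h2.2).trans_le (pow_k_le k)
    rw [mm_cons, List.length_cons]
    set B : ℕ := 10 ^ (k + 3) with hB
    have e1 : 10 ^ ((k + 3) * (2 * l.length)) = B ^ (2 * l.length) := by rw [pow_mul]
    have e2 : 10 ^ ((k + 3) * (2 * l.length + 1)) = B ^ (2 * l.length + 1) := by rw [pow_mul]
    have e3 : 10 ^ ((k + 3) * (2 * (l.length + 1))) = B ^ (2 * l.length + 2) := by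
      rw [← pow_mul]; congr 1
    rw [e1] at h1
    rw [e2, e3]
    have h5 : mm k l + 1 ≤ B ^ (2 * l.length) := h1
    have h6 : B * (mm k l + 1) ≤ B * B ^ (2 * l.length) := Nat.mul_le_mul_left _ h5
    have h7 : B ^ (2 * l.length + 1) * (val x.reverse + 1) ≤ B ^ (2 * l.length + 1) * B :=
      Nat.mul_le_mul_left _ h4
    have h8 : B * B ^ (2 * l.length) = B ^ (2 * l.length + 1) := by rw [pow_succ, mul_comm]
    have h9 : B ^ (2 * l.length + 1) * B = B ^ (2 * l.length + 2) := by rw [← pow_succ]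
    rw [h8] at h6
    rw [h9] at h7
    have h10 : B * (mm k l + 1) = B * mm k l + B := by ring
    have h11 : B ^ (2 * l.length + 1) * (val x.reverse + 1) =
      B ^ (2 * l.length + 1) * val x.reverse + B ^ (2 * l.length + 1) := by ring
    omega

theorem mm_inj {k : ℕ} : ∀ {l l' : List (List ℕ)},
    (∀ x ∈ l, x.length = k ∧ ∀ e ∈ x, e ≤ 9) → (∀ x ∈ l', x.length = k ∧ ∀ e ∈ x, e ≤ 9) →
    l.length = l'.length → mm k l = mm k l' → l = l' := by
  intro l
  induction l with
  | nil =>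
    intro l' _ _ hlen _
    exact (List.eq_nil_of_length_eq_zero hlen.symm).symm
  | cons x l ih =>
    intro l' h h' hlen he
    cases l' with
    | nil => simp at hlen
    | cons y l' =>
      have hlen' : l.length = l'.length := by simpa using hlen
      rw [mm_cons, mm_cons, ← hlen'] at he
      have hx := h x List.mem_cons_self
      have hy := h' y List.mem_cons_self
      have h3 : val x < 10 ^ (k + 3) := (val_lt hx.1 hx.2).trans_le (pow_k_le k)
      have h4 : val y < 10 ^ (k + 3) := (val_lt hy.1 hy.2).trans_le (pow_k_le k)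
      have e2 : 10 ^ ((k + 3) * (2 * l.length + 1)) =
          10 ^ (k + 3) * 10 ^ ((k + 3) * (2 * l.length)) := by
        rw [← pow_add]; congr 1; ring
      have hxy : val x = val y := by
        have := congrArg (· % 10 ^ (k + 3)) he
        simp only [e2] at this
        rw [mul_assoc, mul_assoc, add_assoc, add_assoc, ← mul_add, ← mul_add,
          Nat.add_mul_mod_self_left, Nat.add_mul_mod_self_left, Nat.mod_eq_of_lt h3,
          Nat.mod_eq_of_lt h4] at this
        exact this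
      have hxy' : x = y := val_inj hx.1 hy.1 hx.2 hy.2 hxy
      subst hxy'
      have h5 : mm k l = mm k l' := by
        have h6 : 10 ^ (k + 3) * mm k l = 10 ^ (k + 3) * mm k l' := by omega
        exact Nat.eq_of_mul_eq_mul_left (by positivity) h6
      rw [ih (fun z hz => h z (List.mem_cons_of_mem _ hz))
        (fun z hz => h' z (List.mem_cons_of_mem _ hz)) hlen' h5]

/-- Row 0. -/
theorem base : SBase := by
  intro k W hW R
  have hh : ∀ l ∈ seqs W R, ∀ x ∈ l, x.length = k ∧ ∀ e ∈ x, e ≤ 9 := by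
    intro l hl x hx
    have := (seqs_len hl).2 x hx
    exact ⟨hW.len x this, hW.dig x this⟩
  refine ⟨seqs_card W R, fun l hl => seqs_len hl, ?_, ?_⟩
  · intro l hl
    have := mm_lt (hh l hl)
    rwa [(seqs_len hl).1] at this
  · intro l hl l' hl' he
    exact mm_inj (hh l hl) (hh l' hl') ((seqs_len hl).1.trans (seqs_len hl').1.symm) he

end Pool.Agent.H72.VP
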