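import Pool.Agent.H72.VP.Stm

set_option autoImplicit false

namespace Pool.Agent.H72.VP

private theorem dg_len (p q r : ℕ) (x : List ℕ) : (conv p q r x).length = x.length + 3 := by
  induction x generalizing p q r with
  | nil => rfl
  | cons d x ih => simp only [conv, List.length_cons, ih]

private theorem dg_val (p q r : ℕ) (x : List ℕ) :
    val (conv p q r x) = 1011 * val x + 101 * p + 10 * q + r := by
  induction x generalizing p q r with
  | nil => simp only [conv, val, Nat.ofDigits_cons, Nat.ofDigits_nil]; ring
  | cons d x ih =>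
    have h := ih d p q
    simp only [val] at h ⊢
    simp only [conv, Nat.ofDigits_cons]
    rw [h]; ring

private theorem dg_rev (p q r : ℕ) (x : List ℕ) :
    val (conv p q r x).reverse =
      1101 * val x.reverse + 10 ^ x.length * (101 * p + 10 * q + 100 * r) := by
  induction x generalizing p q r with
  | nil =>
    simp only [conv, val, List.reverse_cons, List.reverse_nil, List.nil_append, List.cons_append,
      Nat.ofDigits_cons, Nat.ofDigits_nil, List.length_nil]
    ring
  | cons d x ih =>
    have h := ih d p q
    simp only [val] at h ⊢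
    simp only [conv, List.reverse_cons, Nat.ofDigits_append, List.length_reverse, dg_len,
      Nat.ofDigits_cons, Nat.ofDigits_nil, List.length_cons]
    rw [h]; push_cast; ring

private theorem dg_last (p q r : ℕ) (x : List ℕ) :
    ∃ y, conv p q r x = y ++ [(p :: x).getLast (List.cons_ne_nil p x)] := by
  induction x generalizing p q r with
  | nil => exact ⟨[p + r, q], rfl⟩
  | cons d x ih =>
    obtain ⟨y, hy⟩ := ih d p q
    refine ⟨(d + p + r) :: y, ?_⟩
    rw [List.getLast_cons (List.cons_ne_nil d x)]
    simp only [conv, hy, List.cons_append]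

private theorem dg_le (p q r : ℕ) (x : List ℕ) (hp : p ≤ 3) (hq : q ≤ 3) (hr : r ≤ 3)
    (hx : ∀ d ∈ x, d ≤ 3) : ∀ e ∈ conv p q r x, e ≤ 9 := by
  induction x generalizing p q r with
  | nil =>
    intro e he
    simp only [conv, List.mem_cons, List.not_mem_nil, or_false] at he
    omega
  | cons d x ih =>
    intro e he
    have hd : d ≤ 3 := hx d List.mem_cons_self
    simp only [conv, List.mem_cons] at he
    rcases he with rfl | he
    · omega
    · exact ih d p q hd hp hq (fun e he => hx e (List.mem_cons_of_mem _ he)) e he

/-- The digits of `1011 * mm k l`. -/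
private def NN : List (List ℕ) → List ℕ
  | [] => []
  | x :: l => conv 0 0 0 x ++ (NN l ++ conv 0 0 0 x.reverse)

private theorem nn_len (k : ℕ) (l : List (List ℕ)) (h : ∀ x ∈ l, x.length = k) :
    (NN l).length = (k + 3) * (2 * l.length) := by
  induction l with
  | nil => rfl
  | cons x l ih =>
    have hx := h x List.mem_cons_self
    have ih' := ih fun y hy => h y (List.mem_cons_of_mem _ hy)
    simp only [NN, List.length_append, dg_len, List.length_reverse, ih', hx, List.length_cons]
    ring

private theorem nn_val (k : ℕ) (l : List (List ℕ)) (h : ∀ x ∈ l, x.length = k) :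
    val (NN l) = 1011 * mm k l := by
  induction l with
  | nil => simp [NN, mm]
  | cons x l ih =>
    have hx := h x List.mem_cons_self
    have hl : ∀ y ∈ l, y.length = k := fun y hy => h y (List.mem_cons_of_mem _ hy)
    have ih' := ih hl
    have h1 := dg_val 0 0 0 x
    have h2 := dg_val 0 0 0 x.reverse
    simp only [val] at ih' h1 h2 ⊢
    simp only [NN, mm, Nat.ofDigits_append, dg_len, nn_len k l hl, hx, ih', h1, h2, val]
    rw [show (k + 3) * (2 * l.length + 1) = (k + 3) + (k + 3) * (2 * l.length) by ring, pow_add]
    ring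

private theorem nn_rev (k : ℕ) (l : List (List ℕ)) (h : ∀ x ∈ l, x.length = k) :
    val (NN l).reverse = 1101 * mm k l := by
  induction l with
  | nil => simp [NN, mm]
  | cons x l ih =>
    have hx := h x List.mem_cons_self
    have hl : ∀ y ∈ l, y.length = k := fun y hy => h y (List.mem_cons_of_mem _ hy)
    have ih' := ih hl
    have h1 := dg_rev 0 0 0 x
    have h2 := dg_rev 0 0 0 x.reverse
    rw [List.reverse_reverse] at h2
    simp only [val] at ih' h1 h2 ⊢
    simp only [NN, mm, List.reverse_append, Nat.ofDigits_append, List.length_append,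
      List.length_reverse, dg_len, nn_len k l hl, hx, ih', h1, h2, val]
    rw [show (k + 3) * (2 * l.length + 1) = (k + 3) + (k + 3) * (2 * l.length) by ring, pow_add]
    ring

private theorem nn_dig (l : List (List ℕ)) (h : ∀ x ∈ l, (∀ e ∈ conv 0 0 0 x, e ≤ 9) ∧
    (∀ e ∈ conv 0 0 0 x.reverse, e ≤ 9)) : ∀ e ∈ NN l, e ≤ 9 := by
  induction l with
  | nil => intro e he; simp [NN] at he
  | cons x l ih =>
    have hx := h x List.mem_cons_self
    have ih' := ih fun y hy => h y (List.mem_cons_of_mem _ hy)
    intro e he
    simp only [NN, List.mem_append] at he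
    rcases he with he | he | he
    · exact hx.1 e he
    · exact ih' e he
    · exact hx.2 e he

private theorem one_len {k : ℕ} (hk : 2 ≤ k) : (one k).length = k := by
  simp only [one, List.length_cons, List.length_replicate]; omega

private theorem one_mem {k : ℕ} : ∀ d ∈ one k, d ≤ 3 := by
  intro d hd
  simp only [one, List.mem_cons, List.mem_replicate] at hd
  omega

theorem digP : SDig := by
  intro k l hk hl
  set L : List (List ℕ) := one k :: l with hL
  have hlen : ∀ x ∈ L, x.length = k := by
    intro x hx
    rcases List.mem_cons.1 hx with rfl | hx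
    · exact one_len hk
    · exact (hl x hx).1
  have hdig : ∀ x ∈ L, (∀ e ∈ conv 0 0 0 x, e ≤ 9) ∧ (∀ e ∈ conv 0 0 0 x.reverse, e ≤ 9) := by
    intro x hx
    rcases List.mem_cons.1 hx with rfl | hx
    · exact ⟨dg_le 0 0 0 _ (by omega) (by omega) (by omega) one_mem,
        dg_le 0 0 0 _ (by omega) (by omega) (by omega)
          fun d hd => one_mem d (List.mem_reverse.1 hd)⟩
    · exact (hl x hx).2
  have hN9 := nn_dig L hdig
  have hlt : ∀ e ∈ NN L, e < 10 := fun e he => by have := hN9 e he; omega
  have hlast : ∀ h : NN L ≠ [], (NN L).getLast h ≠ 0 := by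
    obtain ⟨y, hy⟩ := dg_last 0 0 0 (one k).reverse
    have h1 : (0 :: (one k).reverse).getLast (List.cons_ne_nil _ _) = 1 := by
      simp [one]
    rw [h1] at hy
    have h2 : NN L = (conv 0 0 0 (one k) ++ (NN l ++ y)) ++ [1] := by
      rw [hL]
      simp only [NN, hy, List.append_assoc]
    intro h
    simp only [h2, List.getLast_append_singleton]
    norm_num
  have hd : Nat.digits 10 (1011 * mm k L) = NN L := by
    rw [← nn_val k L hlen]
    exact Nat.digits_ofDigits 10 (by norm_num) (NN L) hlt hlast
  refine ⟨?_, ?_, ?_⟩
  · rw [rev10, hd]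
    exact nn_rev k L hlen
  · have h3 : val (one k) = 1 + 10 * Nat.ofDigits 10 (List.replicate (k - 1) 0) := by
      simp [val, one, Nat.ofDigits_cons]
    have h4 : mm k L = val (one k) + 10 ^ (k + 3) * mm k l +
        10 ^ ((k + 3) * (2 * l.length + 1)) * val (one k).reverse := rfl
    have h5 : (k + 3) * (2 * l.length + 1) = (k + 2 + (k + 3) * (2 * l.length)) + 1 := by ring
    rw [h4, h3, h5, pow_succ 10 (k + 2 + (k + 3) * (2 * l.length)),
      show k + 3 = (k + 2) + 1 by ring, pow_succ 10 (k + 2)]
    have h6 : ∀ a b c d e : ℕ, (1 + 10 * a + b * 10 * c + d * 10 * e) % 10 = 1 := by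
      intro a b c d e
      rw [show 1 + 10 * a + b * 10 * c + d * 10 * e = 1 + 10 * (a + b * c + d * e) by ring,
        Nat.add_mul_mod_self_left]
    exact h6 _ _ _ _ _
  · rw [← nn_val k L hlen]
    have h7 : val (NN L) < 10 ^ (NN L).length :=
      Nat.ofDigits_lt_base_pow_length (by norm_num) hlt
    rw [nn_len k L hlen] at h7
    rw [hL, List.length_cons] at h7
    exact h7

end Pool.Agent.H72.VP
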