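import Pool.Agent.H72.VP.Base

/-!
Row 3: equidistribution of the palindromes in residue classes prime to ten.
-/

set_option autoImplicit false

namespace Pool.Agent.H72.VP

open Finset

private theorem eq_sum_seqs {W : Finset (List ℕ)} {n : ℕ} (f : List (List ℕ) → ℂ) :
    ∑ l ∈ seqs W (n + 1), f l = ∑ x ∈ W, ∑ l ∈ seqs W n, f (x :: l) := by
  classical
  rw [seqs, Finset.sum_image, Finset.sum_product]
  rintro ⟨a, b⟩ _ ⟨c, d⟩ _ h
  simp only [List.cons.injEq] at h
  exact Prod.ext h.1 h.2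

/-- The exponential sum. -/
private noncomputable def eqT (q : ℕ) [NeZero q] (k : ℕ) (W : Finset (List ℕ)) (R : ℕ)
    (a : ZMod q) : ℂ :=
  ∑ l ∈ seqs W R, ZMod.stdAddChar (a * ((mm k l : ℕ) : ZMod q))

private theorem eq_norm_char (q : ℕ) [NeZero q] (b : ZMod q) :
    ‖(ZMod.stdAddChar b : ℂ)‖ = 1 := by
  rw [ZMod.stdAddChar_apply]
  exact Circle.norm_coe _

private theorem eq_kappa (q : ℕ) [NeZero q] : ∃ κ : ℝ, 0 ≤ κ ∧ κ < 2 ∧
    ∀ b : ZMod q, b ≠ 0 → ‖(1 : ℂ) + ZMod.stdAddChar b‖ ≤ κ := by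
  classical
  obtain ⟨b₀, -, hb₀⟩ := Finset.exists_max_image (Finset.univ : Finset (ZMod q))
    (fun b => if b = 0 then (0 : ℝ) else ‖(1 : ℂ) + ZMod.stdAddChar b‖) ⟨0, Finset.mem_univ _⟩
  refine ⟨if b₀ = 0 then (0 : ℝ) else ‖(1 : ℂ) + ZMod.stdAddChar b₀‖, ?_, ?_, ?_⟩
  · split_ifs
    · exact le_refl _
    · exact norm_nonneg _
  · split_ifs with h
    · norm_num
    · have hne : (ZMod.stdAddChar b₀ : ℂ) ≠ 1 := by
        intro h1
        apply h
        apply ZMod.injective_stdAddChar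
        rw [h1, AddChar.map_zero_eq_one]
      have hn := eq_norm_char q b₀
      set w : ℂ := ZMod.stdAddChar b₀ with hw
      have h1 : ‖(1 : ℂ) + w‖ ≤ ‖(1 : ℂ)‖ + ‖w‖ := norm_add_le _ _
      have h2 : ‖(1 : ℂ)‖ + ‖w‖ = 2 := by rw [hn, norm_one]; norm_num
      rcases lt_or_eq_of_le h1 with h3 | h3
      · rw [h2] at h3; exact h3
      · exfalso
        have hray : SameRay ℝ (1 : ℂ) w := sameRay_iff_norm_add.2 h3
        have h4 := (sameRay_iff_norm_smul_eq).1 hray
        rw [norm_one, hn, one_smul, one_smul] at h4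
        exact hne h4
  · intro b hb
    have := hb₀ b (Finset.mem_univ _)
    simp only [hb, if_false] at this
    exact this

private theorem eq_key {q : ℕ} (a : ZMod q) (s : ℕ) (h1 : a * (1 + 100 ^ s) = 0)
    (h2 : a * 99 = 0) : a = 0 := by
  have h3 : a * 100 = a := by
    have : a * 100 = a * 99 + a := by ring
    rw [this, h2, zero_add]
  have h4 : ∀ n : ℕ, a * 100 ^ n = a := by
    intro n
    induction n with
    | zero => rw [pow_zero, mul_one]
    | succ n ih => rw [pow_succ, ← mul_assoc, ih, h3]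
  have h5 : a * 2 = 0 := by
    have : a * 2 = a * (1 + 100 ^ s) := by rw [mul_add, h4 s, mul_one]; ring
    rw [this, h1]
  have : a = a * 99 - 49 * (a * 2) := by ring
  rw [this, h2, h5]
  ring

private theorem eq_od_rep (n : ℕ) : Nat.ofDigits 10 (List.replicate n 0) = 0 := by
  induction n with
  | zero => rfl
  | succ n ih =>
    rw [List.replicate_succ, Nat.ofDigits_cons, ih]

private theorem eq_val_rep (n : ℕ) : val (List.replicate n 0) = 0 := eq_od_rep n

private theorem eq_val_rev_rep (n : ℕ) (x : List ℕ) :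
    val (List.replicate n 0 ++ x) = 10 ^ n * val x := by
  show Nat.ofDigits 10 (List.replicate n 0 ++ x) = _
  rw [Nat.ofDigits_append, List.length_replicate, eq_od_rep, zero_add]

private theorem eq_val_one (k : ℕ) : val (one k) = 1 := by
  show Nat.ofDigits 10 (1 :: List.replicate (k - 1) 0) = 1
  rw [Nat.ofDigits_cons, eq_od_rep]

private theorem eq_val_one_rev {k : ℕ} : val (one k).reverse = 10 ^ (k - 1) := by
  unfold one
  rw [List.reverse_cons, List.reverse_replicate, eq_val_rev_rep]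
  show 10 ^ (k - 1) * Nat.ofDigits 10 [1] = _
  rw [Nat.ofDigits_singleton, mul_one]

private theorem eq_val_e1 (k : ℕ) : val (0 :: 1 :: List.replicate (k - 2) 0) = 10 := by
  show Nat.ofDigits 10 (0 :: 1 :: List.replicate (k - 2) 0) = 10
  rw [Nat.ofDigits_cons, Nat.ofDigits_cons, eq_od_rep]

private theorem eq_val_e1_rev (k : ℕ) :
    val (0 :: 1 :: List.replicate (k - 2) 0).reverse = 10 ^ (k - 2) := by
  rw [List.reverse_cons, List.reverse_cons, List.reverse_replicate, List.append_assoc,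
    eq_val_rev_rep]
  show 10 ^ (k - 2) * Nat.ofDigits 10 [1, 0] = _
  rw [Nat.ofDigits_cons, Nat.ofDigits_singleton]
  norm_num

private theorem eq_step {q : ℕ} [NeZero q] {k : ℕ} {W : Finset (List ℕ)} (R : ℕ) (a : ZMod q) :
    eqT q k W (R + 1) a =
      (∑ x ∈ W, ZMod.stdAddChar (a * (((val x + 10 ^ ((k + 3) * (2 * R + 1)) * val x.reverse : ℕ)) :
        ZMod q))) * eqT q k W R (a * ((10 ^ (k + 3) : ℕ) : ZMod q)) := by
  unfold eqT
  rw [eq_sum_seqs, Finset.sum_mul]
  refine Finset.sum_congr rfl fun x _ => ?_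
  rw [Finset.mul_sum]
  refine Finset.sum_congr rfl fun l hl => ?_
  rw [← AddChar.map_add_eq_mul]
  congr 1
  rw [mm_cons, (seqs_len hl).1]
  push_cast
  ring

private theorem eq_unit {q : ℕ} (hq : Nat.Coprime q 10) (m : ℕ) {a : ZMod q} (ha : a ≠ 0) :
    a * ((10 ^ m : ℕ) : ZMod q) ≠ 0 := by
  intro h
  have hu : IsUnit ((10 ^ m : ℕ) : ZMod q) := by
    rw [ZMod.isUnit_iff_coprime]
    exact (Nat.Coprime.pow_right m hq).symm
  exact ha ((hu.mul_left_eq_zero).1 h)

private theorem eq_first {q : ℕ} [NeZero q] {k : ℕ} {W : Finset (List ℕ)} (hW : Blk k W)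
    {κ : ℝ} (hκ : ∀ b : ZMod q, b ≠ 0 → ‖(1 : ℂ) + ZMod.stdAddChar b‖ ≤ κ)
    (R : ℕ) {a : ZMod q} (ha : a ≠ 0) :
    ‖∑ x ∈ W, (ZMod.stdAddChar (a * (((val x + 10 ^ ((k + 3) * (2 * R + 1)) * val x.reverse : ℕ)) :
        ZMod q)) : ℂ)‖ ≤ (W.card : ℝ) - 2 + κ := by
  classical
  have hk := hW.two
  set f : List ℕ → ZMod q := fun x =>
    a * (((val x + 10 ^ ((k + 3) * (2 * R + 1)) * val x.reverse : ℕ)) : ZMod q) with hf
  have h0 : f (List.replicate k 0) = 0 := by
    rw [hf]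
    simp only
    rw [List.reverse_replicate, eq_val_rep, mul_zero, add_zero, Nat.cast_zero, mul_zero]
  -- a word e with f e nonzero
  have hex : ∃ e ∈ W, e ≠ List.replicate k 0 ∧ f e ≠ 0 := by
    by_contra hcon
    push Not at hcon
    have n0 : one k ≠ List.replicate k 0 := by
      intro h
      have := congrArg val h
      rw [eq_val_one, eq_val_rep] at this
      exact one_ne_zero this
    have n1 : (0 :: 1 :: List.replicate (k - 2) 0) ≠ List.replicate k 0 := by
      intro h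
      have := congrArg val h
      rw [eq_val_e1, eq_val_rep] at this
      norm_num at this
    have g0 := hcon _ hW.e0 n0
    have g1 := hcon _ hW.e1 n1
    rw [hf] at g0 g1
    simp only at g0 g1
    rw [eq_val_one, eq_val_one_rev] at g0
    rw [eq_val_e1, eq_val_e1_rev] at g1
    push_cast at g0 g1
    -- exponents
    set m : ℕ := (k - 2) + (k + 3) * (2 * R + 1) with hm
    have e1 : (10 : ZMod q) ^ ((k + 3) * (2 * R + 1)) * 10 ^ (k - 2) = 10 ^ m := by
      rw [hm, pow_add, mul_comm]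
    have e0 : (10 : ZMod q) ^ ((k + 3) * (2 * R + 1)) * 10 ^ (k - 1) = 10 * 10 ^ m := by
      have : k - 1 = (k - 2) + 1 := by omega
      rw [this, pow_succ, ← mul_assoc, e1, mul_comm]
    rw [e0] at g0
    rw [e1] at g1
    have hs : ∃ s : ℕ, m + 1 = 2 * s := by
      obtain ⟨k', rfl⟩ : ∃ k', k = k' + 2 := ⟨k - 2, by omega⟩
      refine ⟨k' + 3 + (k' + 5) * R, ?_⟩
      rw [hm]
      have : k' + 2 - 2 = k' := by omega
      rw [this]
      ring
    obtain ⟨s, hs⟩ := hs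
    have e2 : (10 : ZMod q) * 10 ^ m = 100 ^ s := by
      have : (10 : ZMod q) * 10 ^ m = 10 ^ (m + 1) := by rw [pow_succ, mul_comm]
      rw [this, hs, pow_mul]
      norm_num
    apply ha
    refine eq_key a s ?_ ?_
    · rw [← e2]; exact g0
    · have : a * 99 = 10 * (a * (10 + 10 ^ m)) - a * (1 + 10 * 10 ^ m) := by ring
      rw [this, g0, g1]
      ring
  obtain ⟨e, heW, hne, hfe⟩ := hex
  have hsub : ({List.replicate k 0, e} : Finset (List ℕ)) ⊆ W := by
    intro x hx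
    rw [Finset.mem_insert, Finset.mem_singleton] at hx
    rcases hx with rfl | rfl
    · exact hW.zero
    · exact heW
  have hcard : (({List.replicate k 0, e} : Finset (List ℕ))).card = 2 :=
    Finset.card_pair (Ne.symm hne)
  rw [← Finset.sum_sdiff hsub, Finset.sum_pair (Ne.symm hne)]
  have h1 : ‖∑ x ∈ W \ {List.replicate k 0, e}, (ZMod.stdAddChar (f x) : ℂ)‖ ≤
      (W.card : ℝ) - 2 := by
    calc ‖∑ x ∈ W \ {List.replicate k 0, e}, (ZMod.stdAddChar (f x) : ℂ)‖
        ≤ ∑ x ∈ W \ {List.replicate k 0, e}, ‖(ZMod.stdAddChar (f x) : ℂ)‖ := norm_sum_le _ _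
      _ = ∑ x ∈ W \ {List.replicate k 0, e}, (1 : ℝ) :=
          Finset.sum_congr rfl fun x _ => eq_norm_char q _
      _ = ((W \ {List.replicate k 0, e}).card : ℝ) := by
          rw [Finset.sum_const, nsmul_eq_mul, mul_one]
      _ = (W.card : ℝ) - 2 := by
          rw [Finset.card_sdiff_of_subset hsub, hcard, Nat.cast_sub]
          · norm_num
          · rw [← hcard]; exact Finset.card_le_card hsub
  have h2 : ‖(ZMod.stdAddChar (f (List.replicate k 0)) : ℂ) + ZMod.stdAddChar (f e)‖ ≤ κ := by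
    rw [h0, AddChar.map_zero_eq_one]
    exact hκ _ hfe
  exact (norm_add_le _ _).trans (add_le_add h1 h2)

private theorem eq_bound {q : ℕ} [NeZero q] (hq : Nat.Coprime q 10) {k : ℕ}
    {W : Finset (List ℕ)} (hW : Blk k W) {κ : ℝ}
    (hκ : ∀ b : ZMod q, b ≠ 0 → ‖(1 : ℂ) + ZMod.stdAddChar b‖ ≤ κ)
    (hD : 0 ≤ (W.card : ℝ) - 2 + κ) (R : ℕ) :
    ∀ a : ZMod q, a ≠ 0 → ‖eqT q k W R a‖ ≤ ((W.card : ℝ) - 2 + κ) ^ R := by
  induction R with
  | zero =>
    intro a _
    unfold eqT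
    rw [seqs, Finset.sum_singleton, eq_norm_char, pow_zero]
  | succ R ih =>
    intro a ha
    have e : ((W.card : ℝ) - 2 + κ) ^ (R + 1) =
        ((W.card : ℝ) - 2 + κ) * ((W.card : ℝ) - 2 + κ) ^ R := by
      rw [pow_succ, mul_comm]
    rw [eq_step, norm_mul, e]
    exact mul_le_mul (eq_first hW hκ R ha) (ih _ (eq_unit hq _ ha)) (norm_nonneg _) hD

private theorem eq_count {q : ℕ} [NeZero q] (S : Finset (List (List ℕ)))
    (F : List (List ℕ) → ℕ) (c : ℕ) :
    (q : ℂ) * (cnt S (fun l => F l ≡ c [MOD q]) : ℂ) =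
      ∑ a : ZMod q, ZMod.stdAddChar (-(a * (c : ZMod q))) *
        ∑ l ∈ S, ZMod.stdAddChar (a * ((F l : ℕ) : ZMod q)) := by
  classical
  rw [cnt_eq, Finset.card_filter]
  push_cast
  rw [Finset.mul_sum]
  simp_rw [Finset.mul_sum]
  rw [Finset.sum_comm]
  refine Finset.sum_congr rfl fun l _ => ?_
  have h := AddChar.sum_mulShift (((F l : ℕ) : ZMod q) - (c : ZMod q))
    (ZMod.isPrimitive_stdAddChar q)
  have h2 : ∀ a : ZMod q, (ZMod.stdAddChar (-(a * (c : ZMod q))) : ℂ) *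
      ZMod.stdAddChar (a * ((F l : ℕ) : ZMod q)) =
      ZMod.stdAddChar (a * (((F l : ℕ) : ZMod q) - (c : ZMod q))) := by
    intro a
    rw [← AddChar.map_add_eq_mul]
    congr 1
    ring
  simp_rw [h2]
  rw [h, ZMod.card]
  by_cases hc : F l ≡ c [MOD q]
  · have h3 : ((F l : ℕ) : ZMod q) - (c : ZMod q) = 0 := by
      rw [sub_eq_zero]
      exact (ZMod.natCast_eq_natCast_iff _ _ _).2 hc
    rw [if_pos hc, if_pos h3, mul_one]
  · have h3 : ¬ ((F l : ℕ) : ZMod q) - (c : ZMod q) = 0 := by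
      rw [sub_eq_zero]
      intro h4
      exact hc ((ZMod.natCast_eq_natCast_iff _ _ _).1 h4)
    rw [if_neg hc, if_neg h3, mul_zero, Nat.cast_zero]

/-- Row 3. -/
theorem equiP : SEqui := by
  classical
  intro k W hW q hq0 hq ε hε
  have hne : NeZero q := ⟨hq0.ne'⟩
  obtain ⟨κ, hκ0, hκ2, hκ⟩ := eq_kappa q
  have hk := hW.two
  have hcard2 : 2 ≤ W.card := by
    have n0 : List.replicate k 0 ≠ one k := by
      intro h
      have := congrArg val h
      rw [eq_val_one, eq_val_rep] at this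
      exact zero_ne_one this
    rw [← Finset.card_pair n0]
    apply Finset.card_le_card
    intro x hx
    rw [Finset.mem_insert, Finset.mem_singleton] at hx
    rcases hx with rfl | rfl
    · exact hW.zero
    · exact hW.e0
  have hDR : (2 : ℝ) ≤ W.card := by exact_mod_cast hcard2
  set D : ℝ := (W.card : ℝ) with hDdef
  have hE0 : 0 ≤ D - 2 + κ := by linarith
  have hDpos : 0 < D := by linarith
  have hlt : (D - 2 + κ) / D < 1 := by
    rw [div_lt_one hDpos]; linarith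
  have hnn : 0 ≤ (D - 2 + κ) / D := div_nonneg hE0 hDpos.le
  obtain ⟨R₀, hR₀⟩ := exists_pow_lt_of_lt_one hε hlt
  refine ⟨R₀, fun R hR c => ?_⟩
  have hpow : (D - 2 + κ) ^ R ≤ ε * D ^ R := by
    have h1 : ((D - 2 + κ) / D) ^ R ≤ ε :=
      (pow_le_pow_of_le_one hnn hlt.le hR).trans hR₀.le
    rw [div_pow, div_le_iff₀ (pow_pos hDpos R)] at h1
    exact h1
  -- the exponential sum of the full words
  set F : List (List ℕ) → ℕ := fun l => mm k (one k :: l) with hF
  set S := seqs W R with hS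
  have hcount := eq_count (q := q) S F c
  have hqR : (0 : ℝ) < q := by exact_mod_cast hq0
  -- norm of inner sums
  have hinner : ∀ a : ZMod q, a ≠ 0 →
      ‖∑ l ∈ S, (ZMod.stdAddChar (a * ((F l : ℕ) : ZMod q)) : ℂ)‖ ≤ (D - 2 + κ) ^ R := by
    intro a ha
    have h1 : ∑ l ∈ S, (ZMod.stdAddChar (a * ((F l : ℕ) : ZMod q)) : ℂ) =
        ZMod.stdAddChar (a * (((1 + 10 ^ ((k + 3) * (2 * R + 1)) * 10 ^ (k - 1) : ℕ)) : ZMod q)) *
          eqT q k W R (a * ((10 ^ (k + 3) : ℕ) : ZMod q)) := by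
      unfold eqT
      rw [Finset.mul_sum]
      refine Finset.sum_congr rfl fun l hl => ?_
      rw [← AddChar.map_add_eq_mul]
      congr 1
      rw [hF]
      simp only
      rw [mm_cons, (seqs_len hl).1, eq_val_one, eq_val_one_rev]
      push_cast
      ring
    rw [h1, norm_mul, eq_norm_char, one_mul]
    exact eq_bound hq hW hκ hE0 R _ (eq_unit hq _ ha)
  -- split off a = 0
  have hsplit : (q : ℂ) * (cnt S (fun l => F l ≡ c [MOD q]) : ℂ) - (D : ℂ) ^ R =
      ∑ a ∈ (Finset.univ : Finset (ZMod q)).erase 0, ZMod.stdAddChar (-(a * (c : ZMod q))) *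
        ∑ l ∈ S, ZMod.stdAddChar (a * ((F l : ℕ) : ZMod q)) := by
    rw [hcount, ← Finset.add_sum_erase _ _ (Finset.mem_univ (0 : ZMod q))]
    have h0 : (ZMod.stdAddChar (-((0 : ZMod q) * (c : ZMod q))) : ℂ) *
        ∑ l ∈ S, ZMod.stdAddChar ((0 : ZMod q) * ((F l : ℕ) : ZMod q)) = (D : ℂ) ^ R := by
      simp only [zero_mul, neg_zero, AddChar.map_zero_eq_one, one_mul]
      rw [Finset.sum_const, nsmul_eq_mul, mul_one, hS, seqs_card, hDdef]
      push_cast
      ring
    rw [h0]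
    ring
  have hnorm : ‖(q : ℂ) * (cnt S (fun l => F l ≡ c [MOD q]) : ℂ) - (D : ℂ) ^ R‖ ≤
      q * (D - 2 + κ) ^ R := by
    rw [hsplit]
    calc ‖∑ a ∈ (Finset.univ : Finset (ZMod q)).erase 0,
          (ZMod.stdAddChar (-(a * (c : ZMod q))) : ℂ) *
          ∑ l ∈ S, ZMod.stdAddChar (a * ((F l : ℕ) : ZMod q))‖
        ≤ ∑ a ∈ (Finset.univ : Finset (ZMod q)).erase 0,
          ‖(ZMod.stdAddChar (-(a * (c : ZMod q))) : ℂ) *
          ∑ l ∈ S, ZMod.stdAddChar (a * ((F l : ℕ) : ZMod q))‖ := norm_sum_le _ _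
      _ ≤ ∑ a ∈ (Finset.univ : Finset (ZMod q)).erase 0, (D - 2 + κ) ^ R := by
          refine Finset.sum_le_sum fun a ha => ?_
          rw [norm_mul, eq_norm_char, one_mul]
          exact hinner a (Finset.ne_of_mem_erase ha)
      _ ≤ ∑ a : ZMod q, (D - 2 + κ) ^ R :=
          Finset.sum_le_sum_of_subset_of_nonneg (Finset.erase_subset _ _)
            fun _ _ _ => pow_nonneg hE0 R
      _ = q * (D - 2 + κ) ^ R := by
          rw [Finset.sum_const, nsmul_eq_mul, Finset.card_univ, ZMod.card]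
  have hreal : |(q : ℝ) * (cnt S (fun l => F l ≡ c [MOD q]) : ℝ) - D ^ R| ≤
      q * (D - 2 + κ) ^ R := by
    have h1 : ((q : ℂ) * (cnt S (fun l => F l ≡ c [MOD q]) : ℂ) - (D : ℂ) ^ R) =
        (((q : ℝ) * (cnt S (fun l => F l ≡ c [MOD q]) : ℝ) - D ^ R : ℝ) : ℂ) := by
      push_cast
      ring
    rw [h1, Complex.norm_real, Real.norm_eq_abs] at hnorm
    exact hnorm
  have hfin : |(cnt S (fun l => F l ≡ c [MOD q]) : ℝ) - D ^ R / q| ≤ (D - 2 + κ) ^ R := by
    have h1 : (cnt S (fun l => F l ≡ c [MOD q]) : ℝ) - D ^ R / q =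
        ((q : ℝ) * (cnt S (fun l => F l ≡ c [MOD q]) : ℝ) - D ^ R) / q := by
      field_simp
    rw [h1, abs_div, abs_of_pos hqR, div_le_iff₀ hqR,
      mul_comm ((D - 2 + κ) ^ R) (q : ℝ)]
    exact hreal
  exact hfin.trans hpow

end Pool.Agent.H72.VP
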