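import Pool.Agent.H72.VP.Base

set_option autoImplicit false

namespace Pool.Agent.H72.VP

theorem one_len {k : ℕ} (hk : 2 ≤ k) : (one k).length = k := by
  rw [one, List.length_cons, List.length_replicate]; omega

theorem one_dig {k : ℕ} : ∀ e ∈ one k, e ≤ 9 := by
  intro e he
  rw [one, List.mem_cons] at he
  rcases he with rfl | he
  · norm_num
  · have := List.eq_of_mem_replicate he
    omega

/-- The set of the theorem. -/
def VSet (X : ℕ) : Set ℕ := {n : ℕ | n ≤ X ∧ IsVPal n ∧ CubeFree n ∧ CubeFree (rev10 n)}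

theorem VSet_finite (X : ℕ) : (VSet X).Finite :=
  (Set.finite_Iic X).subset fun _ hn => hn.1

theorem count_le (hDig : SDig) (hAr : SArith) {k : ℕ} {W : Finset (List ℕ)} (hW : Blk k W)
    (R X : ℕ) (hX : 10 ^ ((k + 3) * (2 * (R + 1))) ≤ X) :
    cnt (seqs W R) (fun l => Good (mm k (one k :: l))) ≤ (VSet X).ncard := by
  classical
  have hk := hW.two
  rw [cnt_eq, ← Set.ncard_coe_finset]
  have hmem : ∀ l ∈ seqs W R, ∀ x ∈ l, x ∈ W := fun l hl => (seqs_len hl).2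
  refine Set.ncard_le_ncard_of_injOn (fun l => 1011 * mm k (one k :: l)) ?_ ?_ (VSet_finite X)
  · intro l hl
    rw [Finset.mem_coe, Finset.mem_filter] at hl
    obtain ⟨hl, hg⟩ := hl
    obtain ⟨h1, h2, h3⟩ := hDig k l hk fun x hx =>
      ⟨hW.len x (hmem l hl x hx), hW.cA x (hmem l hl x hx), hW.cB x (hmem l hl x hx)⟩
    obtain ⟨a1, a2, a3⟩ := hAr _ hg h2
    rw [(seqs_len hl).1] at h3
    refine ⟨(h3.le).trans hX, ⟨?_, ?_, ?_⟩, a1, ?_⟩
    · intro h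
      omega
    · rw [h1]; intro h; omega
    · rw [h1]; exact a3
    · rw [h1]; exact a2
  · intro l hl l' hl' he
    rw [Finset.mem_coe, Finset.mem_filter] at hl hl'
    have he' : mm k (one k :: l) = mm k (one k :: l') := by
      have : 1011 * mm k (one k :: l) = 1011 * mm k (one k :: l') := he
      omega
    have hh : ∀ l ∈ seqs W R, ∀ x ∈ one k :: l, x.length = k ∧ ∀ e ∈ x, e ≤ 9 := by
      intro l hl x hx
      rcases List.mem_cons.1 hx with rfl | hx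
      · exact ⟨one_len hk, one_dig⟩
      · exact ⟨hW.len x (hmem l hl x hx), hW.dig x (hmem l hl x hx)⟩
    have := mm_inj (hh l hl.1) (hh l' hl'.1)
      (by rw [List.length_cons, List.length_cons, (seqs_len hl.1).1, (seqs_len hl'.1).1]) he'
    exact (List.cons.inj this).2

/-- The theorem from the rows. -/
theorem mainP (hWord : SWord) (hDig : SDig) (hMany : SMany) (hAr : SArith) : SMain := by
  obtain ⟨j, hj, W, hW, hD⟩ := hWord
  obtain ⟨R₀, hR₀⟩ := hMany (3 * j - 3) j W hW (by omega) hD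
  set k := 3 * j - 3 with hk
  have hk3 : k + 3 = 3 * j := by omega
  obtain ⟨b, hb⟩ : ∃ b : ℕ, b = 10 ^ (2 * j) := ⟨_, rfl⟩
  obtain ⟨D, hDd⟩ : ∃ D : ℕ, D = W.card := ⟨_, rfl⟩
  rw [← hb, ← hDd] at hD
  have hb1 : 1 < b := by rw [hb]; exact Nat.one_lt_pow (by omega) (by norm_num)
  have hb3 : 1 < b ^ 3 := Nat.one_lt_pow (by norm_num) hb1
  have hMM : 0 < 2 * MM := by norm_num
  -- growth
  obtain ⟨R₁, hR₁⟩ : ∃ R₁ : ℕ, ∀ R ≥ R₁, 2 * MM * b ^ (R + 2) ≤ D ^ R := by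
    have hbR : (0 : ℝ) < (b : ℝ) := by exact_mod_cast (by omega : 0 < b)
    have h1 : (1 : ℝ) < (D : ℝ) / (b : ℝ) := by
      rw [one_lt_div hbR]; exact_mod_cast hD
    have h2 := tendsto_pow_atTop_atTop_of_one_lt h1
    have h3 := h2.eventually_ge_atTop ((2 * MM : ℕ) * (b : ℝ) ^ 2)
    obtain ⟨R₁, h4⟩ := Filter.eventually_atTop.1 h3
    refine ⟨R₁, fun R hR => ?_⟩
    have h5 := h4 R hR
    rw [div_pow, le_div_iff₀ (by positivity)] at h5
    have h6 : ((2 * MM * b ^ (R + 2) : ℕ) : ℝ) ≤ ((D ^ R : ℕ) : ℝ) := by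
      rw [Nat.cast_mul, Nat.cast_pow, Nat.cast_pow, pow_add]
      calc ((2 * MM : ℕ) : ℝ) * ((b : ℝ) ^ R * (b : ℝ) ^ 2)
          = ((2 * MM : ℕ) : ℝ) * (b : ℝ) ^ 2 * (b : ℝ) ^ R := by ring
        _ ≤ (D : ℝ) ^ R := h5
    exact_mod_cast h6
  refine ⟨(b ^ 3) ^ (max R₀ R₁ + 1), fun X hX => ?_⟩
  set L := Nat.log (b ^ 3) X with hL
  have hX0 : X ≠ 0 := by
    have : 0 < (b ^ 3) ^ (max R₀ R₁ + 1) := by positivity
    omega
  have hLge : max R₀ R₁ + 1 ≤ L := Nat.le_log_of_pow_le hb3 hX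
  have hL1 : (b ^ 3) ^ L ≤ X := Nat.pow_log_le_self _ hX0
  have hL2 : X < (b ^ 3) ^ (L + 1) := Nat.lt_pow_succ_log_self hb3 X
  obtain ⟨R, hR⟩ : ∃ R, L = R + 1 := ⟨L - 1, by omega⟩
  have hRR : R₀ ≤ R ∧ R₁ ≤ R := by
    have h1 := le_max_left R₀ R₁
    have h2 := le_max_right R₀ R₁
    omega
  have e1 : 10 ^ ((k + 3) * (2 * (R + 1))) = (b ^ 3) ^ (R + 1) := by
    rw [hb, ← pow_mul, ← pow_mul, hk3]; congr 1; ring
  have hc := count_le hDig hAr hW R X (by rw [e1, ← hR]; exact hL1)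
  have hm := hR₀ R hRR.1
  rw [← hDd] at hm
  have hg := hR₁ R hRR.2
  have h7 : 2 * MM * b ^ (R + 2) ≤ 2 * MM * (VSet X).ncard :=
    hg.trans (hm.trans (Nat.mul_le_mul_left _ hc))
  have h8 : b ^ (R + 2) ≤ (VSet X).ncard := Nat.le_of_mul_le_mul_left h7 hMM
  calc X ≤ (b ^ 3) ^ (L + 1) := hL2.le
    _ = (b ^ (R + 2)) ^ 3 := by rw [hR, ← pow_mul, ← pow_mul]; congr 1; ring
    _ ≤ (VSet X).ncard ^ 3 := Nat.pow_le_pow_left h8 3

end Pool.Agent.H72.VP
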