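import Pool.Agent.H72.VP.Base

set_option autoImplicit false

namespace Pool.Agent.H72.VP

/-- The modulus for the bound `y`: `3 * 337 ^ 2 * 367 ^ 2` times the other primes up to `y` which
are prime to ten. -/
def QQ (y : ℕ) : ℕ := MM * ∏ p ∈ (Finset.range (y + 1)).filter
  (fun p => p.Prime ∧ p ≠ 2 ∧ p ≠ 5), p

theorem QQ_dvd (y : ℕ) : MM ∣ QQ y := Dvd.intro _ rfl

theorem QQ_coprime (y : ℕ) : Nat.Coprime (QQ y) 10 := by
  rw [QQ, Nat.coprime_mul_iff_left]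
  refine ⟨by norm_num [MM], ?_⟩
  refine Nat.Coprime.prod_left fun p hp => ?_
  rw [Finset.mem_filter] at hp
  obtain ⟨_, hp, h2, h5⟩ := hp
  rw [Nat.Prime.coprime_iff_not_dvd hp]
  intro h
  have : p ∣ 2 * 5 := h
  rcases (Nat.Prime.dvd_mul hp).1 this with h | h
  · exact h2 ((Nat.prime_dvd_prime_iff_eq hp Nat.prime_two).1 h)
  · exact h5 ((Nat.prime_dvd_prime_iff_eq hp Nat.prime_five).1 h)

theorem prime_337 : Nat.Prime 337 := by norm_num

theorem prime_367 : Nat.Prime 367 := by norm_num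

/-- Primes up to `y` other than `337`, `367` do not divide `m`. -/
theorem not_dvd_of_mod {y m p : ℕ} (hm : m ≡ 337 * 367 [MOD QQ y]) (h10 : m % 10 = 1)
    (hp : p.Prime) (hy : p ≤ y) (h1 : p ≠ 337) (h2 : p ≠ 367) : ¬ p ∣ m := by
  intro h
  rcases eq_or_ne p 2 with rfl | h3
  · omega
  rcases eq_or_ne p 5 with rfl | h4
  · omega
  have h5 : p ∣ QQ y := by
    rw [QQ]
    refine Dvd.dvd.mul_left (Finset.dvd_prod_of_mem _ ?_) _
    rw [Finset.mem_filter, Finset.mem_range]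
    exact ⟨by omega, hp, h3, h4⟩
  have h6 : 337 * 367 ≡ 0 [MOD p] := ((hm.of_dvd h5).symm).trans ((Nat.modEq_zero_iff_dvd).2 h)
  have h7 : p ∣ 337 * 367 := (Nat.modEq_zero_iff_dvd).1 h6
  rcases (Nat.Prime.dvd_mul hp).1 h7 with h | h
  · exact h1 ((Nat.prime_dvd_prime_iff_eq hp prime_337).1 h)
  · exact h2 ((Nat.prime_dvd_prime_iff_eq hp prime_367).1 h)

theorem mod_exact {y m : ℕ} (hm : m ≡ 337 * 367 [MOD QQ y]) :
    ¬ 337 ^ 2 ∣ m ∧ ¬ 367 ^ 2 ∣ m ∧ ¬ 3 ∣ m := by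
  have h0 : m ≡ 337 * 367 [MOD MM] := hm.of_dvd (QQ_dvd y)
  refine ⟨fun h => ?_, fun h => ?_, fun h => ?_⟩
  · have h1 : m ≡ 337 * 367 [MOD 337 ^ 2] := h0.of_dvd (by norm_num [MM])
    have h2 := (Nat.modEq_zero_iff_dvd).1 (h1.symm.trans ((Nat.modEq_zero_iff_dvd).2 h))
    norm_num at h2
  · have h1 : m ≡ 337 * 367 [MOD 367 ^ 2] := h0.of_dvd (by norm_num [MM])
    have h2 := (Nat.modEq_zero_iff_dvd).1 (h1.symm.trans ((Nat.modEq_zero_iff_dvd).2 h))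
    norm_num at h2
  · have h1 : m ≡ 337 * 367 [MOD 3] := h0.of_dvd (by norm_num [MM])
    have h2 := (Nat.modEq_zero_iff_dvd).1 (h1.symm.trans ((Nat.modEq_zero_iff_dvd).2 h))
    norm_num at h2

/-- A square of a prime which divides `3 * a * m`. -/
theorem sq_aux {a m p : ℕ} (ha : a.Prime) (hp : p.Prime) (hpa : p ≠ a) (hpm : ¬ p ^ 2 ∣ m)
    (hpm' : p = 3 → ¬ 3 ∣ m) : ¬ p ^ 2 ∣ 3 * a * m := by
  intro h
  have h1 : Nat.Coprime (p ^ 2) a :=
    Nat.Coprime.pow_left 2 ((Nat.coprime_primes hp ha).2 hpa)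
  rcases eq_or_ne p 3 with rfl | h3
  · have h2 : 3 ^ 2 ∣ 3 * m := by
      have : 3 * a * m = a * (3 * m) := by ring
      rw [this] at h
      exact h1.dvd_of_dvd_mul_left h
    have h3 : 3 * 3 ∣ 3 * m := by simpa [pow_two] using h2
    exact hpm' rfl (Nat.dvd_of_mul_dvd_mul_left (by norm_num) h3)
  · have h2 : Nat.Coprime (p ^ 2) (3 * a) :=
      Nat.Coprime.mul_right (Nat.Coprime.pow_left 2 ((Nat.coprime_primes hp Nat.prime_three).2 h3))
        h1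
    exact hpm (h2.dvd_of_dvd_mul_left h)

/-- No square of a prime `p ≤ y` divides `1011 * m` (`p ≠ 337`) or `1101 * m` (`p ≠ 367`). -/
theorem sqP {y m : ℕ} (hm : m ≡ 337 * 367 [MOD QQ y]) (h10 : m % 10 = 1) :
    (∀ p : ℕ, p.Prime → p ≤ y → p ≠ 337 → ¬ p ^ 2 ∣ 1011 * m) ∧
    (∀ p : ℕ, p.Prime → p ≤ y → p ≠ 367 → ¬ p ^ 2 ∣ 1101 * m) := by
  obtain ⟨e1, e2, e3⟩ := mod_exact hm
  have key : ∀ p : ℕ, p.Prime → p ≤ y → ¬ p ^ 2 ∣ m := by
    intro p hp hy h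
    rcases eq_or_ne p 337 with rfl | h1
    · exact e1 h
    rcases eq_or_ne p 367 with rfl | h2
    · exact e2 h
    exact not_dvd_of_mod hm h10 hp hy h1 h2 ((dvd_pow_self p (by norm_num)).trans h)
  refine ⟨fun p hp hy h1 => ?_, fun p hp hy h1 => ?_⟩
  · have : (1011 : ℕ) * m = 3 * 337 * m := by norm_num
    rw [this]
    exact sq_aux prime_337 hp h1 (key p hp hy) (fun _ => e3)
  · have : (1101 : ℕ) * m = 3 * 367 * m := by norm_num
    rw [this]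
    exact sq_aux prime_367 hp h1 (key p hp hy) (fun _ => e3)

end Pool.Agent.H72.VP
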