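import Pool.Agent.H72.VP.Final
import Pool.Agent.H72.VP.Sq

set_option autoImplicit false

namespace Pool.Agent.H72.VP

/-- What `m` has to satisfy, modulus `q`. -/
def GoodQ (q m : ℕ) : Prop := m ≡ 337 * 367 [MOD q] ∧
  ∀ p : ℕ, p.Prime → 7 ≤ p → p ≠ 337 → p ≠ 367 → ¬ p ^ 3 ∣ m

/-- Many good words for every modulus. -/
def SManyQ : Prop := ∀ (k j : ℕ) (W : Finset (List ℕ)), Blk k W → k + 3 = 3 * j →
  10 ^ (2 * j) < W.card → ∀ q : ℕ, MM ∣ q → Nat.Coprime q 10 → ∃ R₀ : ℕ, ∀ R ≥ R₀,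
  W.card ^ R ≤ 2 * q * cnt (seqs W R) (fun l => GoodQ q (mm k (one k :: l)))

/-- The set of the theorem, with the bound `y`. -/
def VSetY (y X : ℕ) : Set ℕ := {n : ℕ | n ≤ X ∧ IsVPal n ∧ CubeFree n ∧ CubeFree (rev10 n) ∧
  (∀ p : ℕ, p.Prime → p ≤ y → p ^ 2 ∣ n → p = 337) ∧
  (∀ p : ℕ, p.Prime → p ≤ y → p ^ 2 ∣ rev10 n → p = 367)}

theorem VSetY_finite (y X : ℕ) : (VSetY y X).Finite :=
  (Set.finite_Iic X).subset fun _ hn => hn.1

theorem count_leY (hDig : SDig) (hAr : SArith) {k : ℕ} {W : Finset (List ℕ)} (hW : Blk k W)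
    (y R X : ℕ) (hX : 10 ^ ((k + 3) * (2 * (R + 1))) ≤ X) :
    cnt (seqs W R) (fun l => GoodQ (QQ y) (mm k (one k :: l))) ≤ (VSetY y X).ncard := by
  classical
  have hk := hW.two
  rw [cnt_eq, ← Set.ncard_coe_finset]
  have hmem : ∀ l ∈ seqs W R, ∀ x ∈ l, x ∈ W := fun l hl => (seqs_len hl).2
  refine Set.ncard_le_ncard_of_injOn (fun l => 1011 * mm k (one k :: l)) ?_ ?_ (VSetY_finite y X)
  · intro l hl
    rw [Finset.mem_coe, Finset.mem_filter] at hl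
    obtain ⟨hl, hg⟩ := hl
    obtain ⟨h1, h2, h3⟩ := hDig k l hk fun x hx =>
      ⟨hW.len x (hmem l hl x hx), hW.cA x (hmem l hl x hx), hW.cB x (hmem l hl x hx)⟩
    obtain ⟨a1, a2, a3⟩ := hAr _ ⟨hg.1.of_dvd (QQ_dvd y), hg.2⟩ h2
    obtain ⟨b1, b2⟩ := sqP hg.1 h2
    rw [(seqs_len hl).1] at h3
    refine ⟨(h3.le).trans hX, ⟨?_, ?_, ?_⟩, a1, ?_, ?_, ?_⟩
    · intro h
      omega
    · rw [h1]; intro h; omega
    · rw [h1]; exact a3
    · rw [h1]; exact a2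
    · intro p hp hy hd
      by_contra hne
      exact b1 p hp hy hne hd
    · rw [h1]
      intro p hp hy hd
      by_contra hne
      exact b2 p hp hy hne hd
  · intro l hl l' hl' he
    rw [Finset.mem_coe, Finset.mem_filter] at hl hl'
    have he' : mm k (one k :: l) = mm k (one k :: l') := by
      have : 1011 * mm k (one k :: l) = 1011 * mm k (one k :: l') := he
      omega
    have hh : ∀ l ∈ seqs W R, ∀ x ∈ one k :: l, x.length = k ∧ ∀ e ∈ x, e ≤ 9 := by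
      intro l hl x hx
      rcases List.mem_cons.1 hx with rfl | hx
      · exact ⟨one_len hk, one_dig⟩
      · exact ⟨hW.len x (hmem l hl x hx), hW.dig x (hmem l hl x hx)⟩
    have := mm_inj (hh l hl.1) (hh l' hl'.1)
      (by rw [List.length_cons, List.length_cons, (seqs_len hl.1).1, (seqs_len hl'.1).1]) he'
    exact (List.cons.inj this).2

/-- The theorem with the bound `y`. -/
def SMainY : Prop := ∀ y : ℕ, ∃ X₀ : ℕ, ∀ X ≥ X₀, X ≤ (VSetY y X).ncard ^ 3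

/-- The theorem from the rows. -/
theorem mainY (hWord : SWord) (hDig : SDig) (hMany : SManyQ) (hAr : SArith) : SMainY := by
  intro y
  obtain ⟨j, hj, W, hW, hD⟩ := hWord
  obtain ⟨R₀, hR₀⟩ := hMany (3 * j - 3) j W hW (by omega) hD (QQ y) (QQ_dvd y) (QQ_coprime y)
  set k := 3 * j - 3 with hk
  have hk3 : k + 3 = 3 * j := by omega
  obtain ⟨b, hb⟩ : ∃ b : ℕ, b = 10 ^ (2 * j) := ⟨_, rfl⟩
  obtain ⟨D, hDd⟩ : ∃ D : ℕ, D = W.card := ⟨_, rfl⟩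
  obtain ⟨q, hq⟩ : ∃ q : ℕ, q = QQ y := ⟨_, rfl⟩
  rw [← hb, ← hDd] at hD
  have hb1 : 1 < b := by rw [hb]; exact Nat.one_lt_pow (by omega) (by norm_num)
  have hb3 : 1 < b ^ 3 := Nat.one_lt_pow (by norm_num) hb1
  have hq0 : 0 < q := by
    rcases Nat.eq_zero_or_pos q with h | h
    · have := QQ_coprime y
      rw [← hq, h] at this
      norm_num at this
    · exact h
  have hMM : 0 < 2 * q := by omega
  -- growth
  obtain ⟨R₁, hR₁⟩ : ∃ R₁ : ℕ, ∀ R ≥ R₁, 2 * q * b ^ (R + 2) ≤ D ^ R := by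
    have hbR : (0 : ℝ) < (b : ℝ) := by exact_mod_cast (by omega : 0 < b)
    have h1 : (1 : ℝ) < (D : ℝ) / (b : ℝ) := by
      rw [one_lt_div hbR]; exact_mod_cast hD
    have h2 := tendsto_pow_atTop_atTop_of_one_lt h1
    have h3 := h2.eventually_ge_atTop ((2 * q : ℕ) * (b : ℝ) ^ 2)
    obtain ⟨R₁, h4⟩ := Filter.eventually_atTop.1 h3
    refine ⟨R₁, fun R hR => ?_⟩
    have h5 := h4 R hR
    rw [div_pow, le_div_iff₀ (by positivity)] at h5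
    have h6 : ((2 * q * b ^ (R + 2) : ℕ) : ℝ) ≤ ((D ^ R : ℕ) : ℝ) := by
      rw [Nat.cast_mul, Nat.cast_pow, Nat.cast_pow, pow_add]
      calc ((2 * q : ℕ) : ℝ) * ((b : ℝ) ^ R * (b : ℝ) ^ 2)
          = ((2 * q : ℕ) : ℝ) * (b : ℝ) ^ 2 * (b : ℝ) ^ R := by ring
        _ ≤ (D : ℝ) ^ R := h5
    exact_mod_cast h6
  refine ⟨(b ^ 3) ^ (max R₀ R₁ + 1), fun X hX => ?_⟩
  set L := Nat.log (b ^ 3) X with hL
  have hX0 : X ≠ 0 := by
    have : 0 < (b ^ 3) ^ (max R₀ R₁ + 1) := by positivity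
    omega
  have hLge : max R₀ R₁ + 1 ≤ L := Nat.le_log_of_pow_le hb3 hX
  have hL1 : (b ^ 3) ^ L ≤ X := Nat.pow_log_le_self _ hX0
  have hL2 : X < (b ^ 3) ^ (L + 1) := Nat.lt_pow_succ_log_self hb3 X
  obtain ⟨R, hR⟩ : ∃ R, L = R + 1 := ⟨L - 1, by omega⟩
  have hRR : R₀ ≤ R ∧ R₁ ≤ R := by
    have h1 := le_max_left R₀ R₁
    have h2 := le_max_right R₀ R₁
    omega
  have e1 : 10 ^ ((k + 3) * (2 * (R + 1))) = (b ^ 3) ^ (R + 1) := by
    rw [hb, ← pow_mul, ← pow_mul, hk3]; congr 1; ring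
  have hc := count_leY hDig hAr hW y R X (by rw [e1, ← hR]; exact hL1)
  have hm := hR₀ R hRR.1
  rw [← hDd] at hm
  rw [← hq] at hm hc
  have hg := hR₁ R hRR.2
  have h7 : 2 * q * b ^ (R + 2) ≤ 2 * q * (VSetY y X).ncard :=
    hg.trans (hm.trans (Nat.mul_le_mul_left _ hc))
  have h8 : b ^ (R + 2) ≤ (VSetY y X).ncard := Nat.le_of_mul_le_mul_left h7 hMM
  calc X ≤ (b ^ 3) ^ (L + 1) := hL2.le
    _ = (b ^ (R + 2)) ^ 3 := by rw [hR, ← pow_mul, ← pow_mul]; congr 1; ring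
    _ ≤ (VSetY y X).ncard ^ 3 := Nat.pow_le_pow_left h8 3

end Pool.Agent.H72.VP
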