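import Pool.Agent.H72.VP.Base

/-!
Row 6: many good words.
-/

set_option autoImplicit false

namespace Pool.Agent.H72.VP

open Finset

private theorem many_not_dvd {p q m : ℕ} (hp : p.Prime) (h1 : p ≠ 337) (h2 : p ≠ 367)
    (hm : m ≡ 337 * 367 [MOD q]) (hd : p ^ 3 ∣ m) : ¬ p ∣ q := by
  intro h
  have q337 : Nat.Prime 337 := by norm_num
  have q367 : Nat.Prime 367 := by norm_num
  have h3 : p ∣ m := (dvd_pow_self p (by norm_num)).trans hd
  have h4 : 337 * 367 ≡ 0 [MOD p] := ((hm.of_dvd h).symm).trans ((Nat.modEq_zero_iff_dvd).2 h3)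
  have h5 : p ∣ 337 * 367 := (Nat.modEq_zero_iff_dvd).1 h4
  rcases (Nat.Prime.dvd_mul hp).1 h5 with h | h
  · exact h1 ((Nat.prime_dvd_prime_iff_eq hp q337).1 h)
  · exact h2 ((Nat.prime_dvd_prime_iff_eq hp q367).1 h)

private theorem many_cop_ten {p : ℕ} (hp : p.Prime) (h7 : 7 ≤ p) : Nat.Coprime p 10 := by
  refine (Nat.Prime.coprime_iff_not_dvd hp).2 ?_
  intro h
  have h' : p ∣ 2 * 5 := h
  rcases (Nat.Prime.dvd_mul hp).1 h' with h | h
  · have := Nat.le_of_dvd (by norm_num) h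
    omega
  · have := Nat.le_of_dvd (by norm_num) h
    omega

private theorem many_sum (N : ℕ) :
    ∑ n ∈ Finset.Ico 7 (N + 7), (1 : ℝ) / (n : ℝ) ^ 3 ≤ 1 / 6 - 1 / ((N : ℝ) + 6) := by
  induction N with
  | zero => simp
  | succ N ih =>
    rw [show N + 1 + 7 = (N + 7) + 1 by ring, Finset.sum_Ico_succ_top (by omega)]
    have hN : (0 : ℝ) ≤ N := Nat.cast_nonneg N
    have h : (1 : ℝ) / ((N + 7 : ℕ) : ℝ) ^ 3 ≤ 1 / ((N : ℝ) + 6) - 1 / (((N + 1 : ℕ) : ℝ) + 6) := by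
      push_cast
      have e : (1 : ℝ) / ((N : ℝ) + 6) - 1 / ((N : ℝ) + 1 + 6) =
          1 / (((N : ℝ) + 6) * ((N : ℝ) + 7)) := by
        field_simp
        ring
      rw [e]
      apply one_div_le_one_div_of_le (by positivity)
      nlinarith [sq_nonneg ((N : ℝ) + 7), mul_nonneg hN hN]
    linarith

/-- Row 6, general modulus. -/
theorem manyQ (hE : SEqui) (hT : STail) (k j : ℕ) (W : Finset (List ℕ)) (hW : Blk k W)
    (hkj : k + 3 = 3 * j) (hD : 10 ^ (2 * j) < W.card) (q : ℕ) (hq10 : Nat.Coprime q 10) :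
    ∃ R₀ : ℕ, ∀ R ≥ R₀, W.card ^ R ≤ 2 * q * cnt (seqs W R)
      (fun l => mm k (one k :: l) ≡ 337 * 367 [MOD q] ∧
        ∀ p : ℕ, p.Prime → 7 ≤ p → p ≠ 337 → p ≠ 367 → ¬ p ^ 3 ∣ mm k (one k :: l)) := by
  classical
  have hqn : 0 < q := by
    rcases Nat.eq_zero_or_pos q with h | h
    · subst h
      norm_num at hq10
    · exact h
  have hDpos : 0 < W.card := lt_of_le_of_lt (Nat.zero_le _) hD
  have hMM : (0 : ℝ) < (q : ℝ) := by exact_mod_cast hqn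
  obtain ⟨P₁, hP₁⟩ := hT k j W hW hkj hD (1 / (6 * (q : ℝ))) (by positivity)
  obtain ⟨RA, hRA⟩ := hE k W hW q hqn hq10 (1 / (12 * (q : ℝ))) (by positivity)
  set I : Finset ℕ := (Finset.Ico 7 (P₁ + 7)).filter
    (fun p => p.Prime ∧ ¬ p ∣ q) with hI
  -- the residue class of a prime
  have hc : ∀ p : ℕ, ∃ c : ℕ, p ∈ I → ∀ m : ℕ, m ≡ 337 * 367 [MOD q] → p ^ 3 ∣ m →
      m ≡ c [MOD q * p ^ 3] := by
    intro p
    by_cases hp : p ∈ I
    · rw [hI, Finset.mem_filter, Finset.mem_Ico] at hp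
      obtain ⟨⟨h7, -⟩, hpp, hpq⟩ := hp
      have hco : Nat.Coprime q (p ^ 3) :=
        Nat.Coprime.pow_right 3 ((Nat.Prime.coprime_iff_not_dvd hpp).2 hpq).symm
      refine ⟨(Nat.chineseRemainder hco (337 * 367) 0 : ℕ), fun _ m hm hd => ?_⟩
      exact Nat.chineseRemainder_modEq_unique hco hm ((Nat.modEq_zero_iff_dvd).2 hd)
    · exact ⟨0, fun h => absurd h hp⟩
  choose c hc using hc
  have hR : ∀ p : ℕ, ∃ R₀ : ℕ, ∀ R ≥ R₀, p ∈ I →
      (cnt (seqs W R) (fun l => mm k (one k :: l) ≡ c p [MOD q * p ^ 3]) : ℝ) ≤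
        (W.card : ℝ) ^ R / (q * p ^ 3 : ℕ) + 1 / (12 * (q : ℝ) * ((P₁ : ℝ) + 1)) *
          (W.card : ℝ) ^ R := by
    intro p
    by_cases hp : p ∈ I
    · have hp' := hp
      rw [hI, Finset.mem_filter, Finset.mem_Ico] at hp'
      obtain ⟨⟨h7, -⟩, hpp, hpq⟩ := hp'
      have hq' : 0 < q * p ^ 3 := Nat.mul_pos hqn (pow_pos hpp.pos 3)
      have hq10' : Nat.Coprime (q * p ^ 3) 10 :=
        Nat.Coprime.mul_left hq10 (Nat.Coprime.pow_left 3 (many_cop_ten hpp h7))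
      obtain ⟨R₀, hR₀⟩ := hE k W hW (q * p ^ 3) hq' hq10'
        (1 / (12 * (q : ℝ) * ((P₁ : ℝ) + 1))) (by positivity)
      refine ⟨R₀, fun R hR _ => ?_⟩
      have := (abs_le.1 (hR₀ R hR (c p))).2
      linarith
    · exact ⟨0, fun R _ h => absurd h hp⟩
  choose f hf using hR
  refine ⟨max RA (I.sup f), fun R hR => ?_⟩
  have hRA' : RA ≤ R := le_trans (le_max_left _ _) hR
  have hRI : ∀ p ∈ I, f p ≤ R := fun p hp =>
    (Finset.le_sup hp).trans (le_trans (le_max_right _ _) hR)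
  set T : ℝ := (W.card : ℝ) ^ R with hTdef
  have hTpos : 0 < T := by
    rw [hTdef]
    have : (0 : ℝ) < W.card := by exact_mod_cast hDpos
    positivity
  -- the predicates
  set A : List (List ℕ) → Prop := fun l => mm k (one k :: l) ≡ 337 * 367 [MOD q] with hA
  set Q : List (List ℕ) → Prop := fun l => ∃ p : ℕ, p.Prime ∧ 7 ≤ p ∧ p ≠ 337 ∧ p ≠ 367 ∧
    p ^ 3 ∣ mm k (one k :: l) with hQ
  set Q2 : List (List ℕ) → Prop := fun l => ∃ p : ℕ, P₁ ≤ p ∧ Nat.Coprime p 10 ∧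
    p ^ 3 ∣ mm k (one k :: l) with hQ2
  set Q1 : List (List ℕ) → Prop := fun l => ∃ p ∈ I,
    mm k (one k :: l) ≡ c p [MOD q * p ^ 3] with hQ1
  set G : List (List ℕ) → Prop := fun l => mm k (one k :: l) ≡ 337 * 367 [MOD q] ∧
        ∀ p : ℕ, p.Prime → 7 ≤ p → p ≠ 337 → p ≠ 367 → ¬ p ^ 3 ∣ mm k (one k :: l) with hG
  have s1 : cnt (seqs W R) A ≤ cnt (seqs W R) (fun l => A l ∧ ¬ Q l) +
      cnt (seqs W R) (fun l => A l ∧ Q l) := cnt_split _ _ _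
  have s2 : cnt (seqs W R) (fun l => A l ∧ Q l) ≤
      cnt (seqs W R) (fun l => (A l ∧ Q l) ∧ ¬ Q2 l) +
      cnt (seqs W R) (fun l => (A l ∧ Q l) ∧ Q2 l) := cnt_split _ _ _
  have s3 : cnt (seqs W R) (fun l => (A l ∧ Q l) ∧ Q2 l) ≤ cnt (seqs W R) Q2 :=
    cnt_mono fun l _ h => h.2
  have s4 : cnt (seqs W R) (fun l => (A l ∧ Q l) ∧ ¬ Q2 l) ≤ cnt (seqs W R) Q1 := by
    refine cnt_mono fun l _ h => ?_
    obtain ⟨⟨hAl, p, hpp, h7, h1, h2, hd⟩, hn⟩ := h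
    have hlt : p < P₁ := by
      by_contra hge
      exact hn ⟨p, not_lt.1 hge, many_cop_ten hpp h7, hd⟩
    have hpI : p ∈ I := by
      rw [hI, Finset.mem_filter, Finset.mem_Ico]
      exact ⟨⟨h7, by omega⟩, hpp, many_not_dvd hpp h1 h2 hAl hd⟩
    exact ⟨p, hpI, hc p hpI _ hAl hd⟩
  have s5 : cnt (seqs W R) Q1 ≤ ∑ p ∈ I, cnt (seqs W R)
      (fun l => mm k (one k :: l) ≡ c p [MOD q * p ^ 3]) := cnt_exists_le _ _ _
  have s6 : cnt (seqs W R) (fun l => A l ∧ ¬ Q l) ≤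
      cnt (seqs W R) G := by
    refine cnt_mono fun l _ h => ⟨h.1, ?_⟩
    intro p hpp h7 h1 h2 hd
    exact h.2 ⟨p, hpp, h7, h1, h2, hd⟩
  -- real estimates
  have r1 : T / (q : ℝ) - 1 / (12 * (q : ℝ)) * T ≤ (cnt (seqs W R) A : ℝ) := by
    have h : -(1 / (12 * (q : ℝ)) * T) ≤ (cnt (seqs W R) A : ℝ) - T / (q : ℝ) :=
      (abs_le.1 (hRA R hRA' (337 * 367))).1
    generalize (cnt (seqs W R) A : ℝ) = z at h ⊢
    generalize T / (q : ℝ) = u at h ⊢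
    generalize 1 / (12 * (q : ℝ)) * T = w at h ⊢
    linarith
  have r2 : (cnt (seqs W R) Q2 : ℝ) ≤ 1 / (6 * (q : ℝ)) * T := hP₁ R
  have hcard : (I.card : ℝ) ≤ (P₁ : ℝ) + 1 := by
    have h : I.card ≤ P₁ := by
      calc I.card ≤ (Finset.Ico 7 (P₁ + 7)).card := Finset.card_filter_le _ _
        _ = P₁ := by rw [Nat.card_Ico]; omega
    have : (I.card : ℝ) ≤ P₁ := by exact_mod_cast h
    linarith
  have hsum : ∑ p ∈ I, (1 : ℝ) / (p : ℝ) ^ 3 ≤ 1 / 6 := by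
    calc ∑ p ∈ I, (1 : ℝ) / (p : ℝ) ^ 3 ≤ ∑ n ∈ Finset.Ico 7 (P₁ + 7), (1 : ℝ) / (n : ℝ) ^ 3 :=
          Finset.sum_le_sum_of_subset_of_nonneg (Finset.filter_subset _ _)
            (fun _ _ _ => by positivity)
      _ ≤ 1 / 6 - 1 / ((P₁ : ℝ) + 6) := many_sum P₁
      _ ≤ 1 / 6 := by
          have : (0 : ℝ) ≤ 1 / ((P₁ : ℝ) + 6) := by positivity
          linarith
  have r3 : ((∑ p ∈ I, cnt (seqs W R)
      (fun l => mm k (one k :: l) ≡ c p [MOD q * p ^ 3]) : ℕ) : ℝ) ≤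
      T / (q : ℝ) * (1 / 6) + T / (q : ℝ) * (1 / 12) := by
    rw [Nat.cast_sum]
    calc ∑ p ∈ I, (cnt (seqs W R) (fun l => mm k (one k :: l) ≡ c p [MOD q * p ^ 3]) : ℝ)
        ≤ ∑ p ∈ I, (T / (q : ℝ) * ((1 : ℝ) / (p : ℝ) ^ 3) + 1 / (12 * (q : ℝ) * ((P₁ : ℝ) + 1)) * T) := by
          refine Finset.sum_le_sum fun p hp => ?_
          have h := hf p R (hRI p hp) hp
          have e : T / ((q * p ^ 3 : ℕ) : ℝ) = T / (q : ℝ) * ((1 : ℝ) / (p : ℝ) ^ 3) := by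
            rw [Nat.cast_mul, Nat.cast_pow, div_mul_div_comm, mul_one]
          rw [e] at h
          exact h
      _ = T / (q : ℝ) * (∑ p ∈ I, (1 : ℝ) / (p : ℝ) ^ 3) +
          (I.card : ℝ) * (1 / (12 * (q : ℝ) * ((P₁ : ℝ) + 1)) * T) := by
          rw [Finset.sum_add_distrib, ← Finset.mul_sum, Finset.sum_const, nsmul_eq_mul]
      _ ≤ T / (q : ℝ) * (1 / 6) + T / (q : ℝ) * (1 / 12) := by
          refine add_le_add (mul_le_mul_of_nonneg_left hsum (by positivity)) ?_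
          have hP : (0 : ℝ) < (P₁ : ℝ) + 1 := by positivity
          calc (I.card : ℝ) * (1 / (12 * (q : ℝ) * ((P₁ : ℝ) + 1)) * T)
              ≤ ((P₁ : ℝ) + 1) * (1 / (12 * (q : ℝ) * ((P₁ : ℝ) + 1)) * T) :=
                mul_le_mul_of_nonneg_right hcard (by positivity)
            _ = T / (q : ℝ) * (1 / 12) := by field_simp
  have key : T / (q : ℝ) * (1 / 2) ≤ (cnt (seqs W R) G : ℝ) := by
    have c1 : (cnt (seqs W R) A : ℝ) ≤ (cnt (seqs W R) G : ℝ) +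
        (((∑ p ∈ I, cnt (seqs W R)
          (fun l => mm k (one k :: l) ≡ c p [MOD q * p ^ 3]) : ℕ) : ℝ) +
          (cnt (seqs W R) Q2 : ℝ)) := by
      have : cnt (seqs W R) A ≤ cnt (seqs W R) G +
          ((∑ p ∈ I, cnt (seqs W R) (fun l => mm k (one k :: l) ≡ c p [MOD q * p ^ 3])) +
          cnt (seqs W R) Q2) := by omega
      exact_mod_cast this
    have e1 : 1 / (12 * (q : ℝ)) * T = T / (q : ℝ) * (1 / 12) := by field_simp
    have e2 : 1 / (6 * (q : ℝ)) * T = T / (q : ℝ) * (1 / 6) := by field_simp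
    rw [e1] at r1
    rw [e2] at r2
    generalize T / (q : ℝ) = u at r1 r2 r3 ⊢
    generalize (cnt (seqs W R) A : ℝ) = z at c1 r1
    generalize (cnt (seqs W R) Q2 : ℝ) = y at c1 r2
    generalize ((∑ p ∈ I, cnt (seqs W R)
          (fun l => mm k (one k :: l) ≡ c p [MOD q * p ^ 3]) : ℕ) : ℝ) = x at c1 r3
    generalize (cnt (seqs W R) G : ℝ) = g at c1 ⊢
    linarith
  have fin : (W.card : ℝ) ^ R ≤
      2 * (q : ℝ) * (cnt (seqs W R) G : ℝ) := by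
    rw [← hTdef]
    have h1 : 2 * (q : ℝ) * (T / (q : ℝ) * (1 / 2)) = T := by field_simp
    calc T = 2 * (q : ℝ) * (T / (q : ℝ) * (1 / 2)) := h1.symm
      _ ≤ _ := mul_le_mul_of_nonneg_left key (by positivity)
  exact_mod_cast fin

/-- Row 6. -/
theorem manyP : SEqui → STail → SMany := by
  intro hE hT k j W hW hkj hD
  exact manyQ hE hT k j W hW hkj hD MM (by norm_num)

end Pool.Agent.H72.VP
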