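import Mathlib

/-!
# Cube-free v-palindromes: definitions and statements

Words are lists of decimal digits, lowest digit first. `k` is the length of a block, every block is
followed by three zeros, so a block takes `k + 3` digits. `1011 = 3 * 337`, `1101 = 3 * 367`.
-/

set_option autoImplicit false

namespace Pool.Agent.H72.VP

/-- `v(n)`: sum of the primes and of the exponents larger than one in the factorization. -/
def vfun (n : ℕ) : ℕ :=
  ∑ p ∈ n.primeFactors, (p + if 2 ≤ n.factorization p then n.factorization p else 0)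

/-- The decimal digit reversal. -/
def rev10 (n : ℕ) : ℕ := Nat.ofDigits 10 (Nat.digits 10 n).reverse

/-- `n` is a v-palindrome in base ten. -/
def IsVPal (n : ℕ) : Prop := ¬ 10 ∣ n ∧ n ≠ rev10 n ∧ vfun n = vfun (rev10 n)

/-- No cube of a prime divides `n`. -/
def CubeFree (n : ℕ) : Prop := ∀ p : ℕ, p.Prime → ¬ p ^ 3 ∣ n

/-- The digits of `1011 * x` if there are no carries; `p q r` are the last three digits before
`x` (the last one is `p`). -/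
def conv (p q r : ℕ) : List ℕ → List ℕ
  | [] => [p + r, q, p]
  | d :: x => (d + p + r) :: conv d p q x

/-- The number with digits `x`. -/
abbrev val (x : List ℕ) : ℕ := Nat.ofDigits 10 x

/-- The block `1000...0`. -/
def one (k : ℕ) : List ℕ := 1 :: List.replicate (k - 1) 0

/-- `W` is a finite set of blocks of length `k`. -/
structure Blk (k : ℕ) (W : Finset (List ℕ)) : Prop where
  two : 2 ≤ k
  len : ∀ x ∈ W, x.length = k
  dig : ∀ x ∈ W, ∀ e ∈ x, e ≤ 9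
  cA : ∀ x ∈ W, ∀ e ∈ conv 0 0 0 x, e ≤ 9
  cB : ∀ x ∈ W, ∀ e ∈ conv 0 0 0 x.reverse, e ≤ 9
  zero : List.replicate k 0 ∈ W
  e0 : one k ∈ W
  e1 : (0 :: 1 :: List.replicate (k - 2) 0) ∈ W

/-- The palindrome built from the blocks of `l`, the outer block first. -/
def mm (k : ℕ) : List (List ℕ) → ℕ
  | [] => 0
  | x :: l => val x + 10 ^ (k + 3) * mm k l +
      10 ^ ((k + 3) * (2 * l.length + 1)) * val x.reverse

/-- The lists of `n` blocks. -/
def seqs (W : Finset (List ℕ)) : ℕ → Finset (List (List ℕ))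
  | 0 => {[]}
  | n + 1 => (W ×ˢ seqs W n).image (fun t => t.1 :: t.2)

/-- The number of elements of `S` with the property `P`. -/
noncomputable def cnt (S : Finset (List (List ℕ))) (P : List (List ℕ) → Prop) : ℕ := by
  classical exact (S.filter P).card

/-- The modulus. -/
abbrev MM : ℕ := 3 * 337 ^ 2 * 367 ^ 2

/-- Row 0 (Base.lean). -/
def SBase : Prop := ∀ (k : ℕ) (W : Finset (List ℕ)), Blk k W → ∀ R : ℕ,
  (seqs W R).card = W.card ^ R ∧
  (∀ l ∈ seqs W R, l.length = R ∧ ∀ x ∈ l, x ∈ W) ∧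
  (∀ l ∈ seqs W R, mm k l < 10 ^ ((k + 3) * (2 * R))) ∧
  (∀ l ∈ seqs W R, ∀ l' ∈ seqs W R, mm k l = mm k l' → l = l')

/-- Row 1: many blocks. -/
def SWord : Prop := ∃ j : ℕ, 2 ≤ j ∧ ∃ W : Finset (List ℕ), Blk (3 * j - 3) W ∧
  10 ^ (2 * j) < W.card

/-- Row 2: digits and reversal. -/
def SDig : Prop := ∀ (k : ℕ) (l : List (List ℕ)), 2 ≤ k →
  (∀ x ∈ l, x.length = k ∧ (∀ e ∈ conv 0 0 0 x, e ≤ 9) ∧ (∀ e ∈ conv 0 0 0 x.reverse, e ≤ 9)) →
  rev10 (1011 * mm k (one k :: l)) = 1101 * mm k (one k :: l) ∧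
  mm k (one k :: l) % 10 = 1 ∧
  1011 * mm k (one k :: l) < 10 ^ ((k + 3) * (2 * (l.length + 1)))

/-- Row 3: equidistribution. -/
def SEqui : Prop := ∀ (k : ℕ) (W : Finset (List ℕ)), Blk k W → ∀ q : ℕ, 0 < q →
  Nat.Coprime q 10 → ∀ ε : ℝ, 0 < ε → ∃ R₀ : ℕ, ∀ R ≥ R₀, ∀ c : ℕ,
  |(cnt (seqs W R) (fun l => mm k (one k :: l) ≡ c [MOD q]) : ℝ) - (W.card : ℝ) ^ R / q|
    ≤ ε * (W.card : ℝ) ^ R

/-- Row 4: few words with a divisor `p ^ 3`, `p` large. -/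
def STail : Prop := ∀ (k j : ℕ) (W : Finset (List ℕ)), Blk k W → k + 3 = 3 * j →
  10 ^ (2 * j) < W.card → ∀ ε : ℝ, 0 < ε → ∃ P₁ : ℕ, ∀ R : ℕ,
  (cnt (seqs W R) (fun l => ∃ p : ℕ, P₁ ≤ p ∧ Nat.Coprime p 10 ∧
    p ^ 3 ∣ mm k (one k :: l)) : ℝ) ≤ ε * (W.card : ℝ) ^ R

/-- What `m` has to satisfy. -/
def Good (m : ℕ) : Prop := m ≡ 337 * 367 [MOD MM] ∧
  ∀ p : ℕ, p.Prime → 7 ≤ p → p ≠ 337 → p ≠ 367 → ¬ p ^ 3 ∣ m

/-- Row 5: arithmetic. -/
def SArith : Prop := ∀ m : ℕ, Good m → m % 10 = 1 →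
  CubeFree (1011 * m) ∧ CubeFree (1101 * m) ∧ vfun (1011 * m) = vfun (1101 * m)

/-- Row 6: many good words. -/
def SMany : Prop := ∀ (k j : ℕ) (W : Finset (List ℕ)), Blk k W → k + 3 = 3 * j →
  10 ^ (2 * j) < W.card → ∃ R₀ : ℕ, ∀ R ≥ R₀,
  W.card ^ R ≤ 2 * MM * cnt (seqs W R) (fun l => Good (mm k (one k :: l)))

/-- The theorem. -/
def SMain : Prop := ∃ X₀ : ℕ, ∀ X ≥ X₀,
  X ≤ {n : ℕ | n ≤ X ∧ IsVPal n ∧ CubeFree n ∧ CubeFree (rev10 n)}.ncard ^ 3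

end Pool.Agent.H72.VP
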