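import Pool.Agent.H72.VP.Stm

/-!
# Few words with a divisor `p ^ 3`, `p` large
-/

set_option autoImplicit false

namespace Pool.Agent.H72.VP

open Finset

private theorem tl_cnt_eq (S : Finset (List (List ℕ))) (P : List (List ℕ) → Prop)
    [DecidablePred P] : cnt S P = (S.filter P).card := by
  unfold cnt
  congr

private theorem tl_cnt_mono {S : Finset (List (List ℕ))} {P Q : List (List ℕ) → Prop}
    (h : ∀ l ∈ S, P l → Q l) : cnt S P ≤ cnt S Q := by
  classical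
  rw [tl_cnt_eq, tl_cnt_eq]
  apply Finset.card_le_card
  intro l hl
  rw [Finset.mem_filter] at hl ⊢
  exact ⟨hl.1, h l hl.1 hl.2⟩

private theorem tl_cnt_union {ι : Type} (I : Finset ι) (S : Finset (List (List ℕ)))
    (P : ι → List (List ℕ) → Prop) (B : ι → ℕ) (hB : ∀ i ∈ I, cnt S (P i) ≤ B i) :
    cnt S (fun l => ∃ i ∈ I, P i l) ≤ ∑ i ∈ I, B i := by
  classical
  rw [tl_cnt_eq]
  have h1 : S.filter (fun l => ∃ i ∈ I, P i l) ⊆ I.biUnion (fun i => S.filter (P i)) := by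
    intro l hl
    rw [Finset.mem_filter] at hl
    obtain ⟨hl, i, hi, hp⟩ := hl
    rw [Finset.mem_biUnion]
    exact ⟨i, hi, Finset.mem_filter.mpr ⟨hl, hp⟩⟩
  refine (Finset.card_le_card h1).trans (Finset.card_biUnion_le.trans ?_)
  apply Finset.sum_le_sum
  intro i hi
  have := hB i hi
  rwa [tl_cnt_eq] at this

private theorem tl_cnt_succ (W : Finset (List ℕ)) (n : ℕ) (P : List (List ℕ) → Prop) (B : ℕ)
    (hB : ∀ x ∈ W, cnt (seqs W n) (fun l => P (x :: l)) ≤ B) :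
    cnt (seqs W (n + 1)) P ≤ W.card * B := by
  classical
  rw [tl_cnt_eq]
  have h1 : (seqs W (n + 1)).filter P ⊆
      W.biUnion (fun x => ((seqs W n).filter (fun l => P (x :: l))).image (fun l => x :: l)) := by
    intro l hl
    rw [Finset.mem_filter] at hl
    obtain ⟨hl, hp⟩ := hl
    simp only [seqs, Finset.mem_image, Finset.mem_product] at hl
    obtain ⟨⟨x, t⟩, ⟨hx, ht⟩, rfl⟩ := hl
    rw [Finset.mem_biUnion]
    exact ⟨x, hx, Finset.mem_image.mpr ⟨t, Finset.mem_filter.mpr ⟨ht, hp⟩, rfl⟩⟩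
  refine (Finset.card_le_card h1).trans (Finset.card_biUnion_le.trans ?_)
  rw [← smul_eq_mul]
  apply Finset.sum_le_card_nsmul
  intro x hx
  refine Finset.card_image_le.trans ?_
  have := hB x hx
  rwa [tl_cnt_eq] at this

/-- The outer block can be removed. -/
private theorem tl_cancel {k P : ℕ} (hP : Nat.Coprime P 10) (x : List ℕ) {l l' : List (List ℕ)}
    (hl : l.length = l'.length) (h : mm k (x :: l) ≡ mm k (x :: l') [MOD P]) :
    mm k l ≡ mm k l' [MOD P] := by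
  simp only [mm, hl] at h
  have h2 := Nat.ModEq.add_right_cancel' _ h
  have h3 := Nat.ModEq.add_left_cancel' _ h2
  exact Nat.ModEq.cancel_left_of_coprime (Nat.Coprime.pow_right _ hP) h3

private theorem tl_step (hS : SBase) {k : ℕ} {W : Finset (List ℕ)} (hW : Blk k W) {P : ℕ}
    (hP : Nat.Coprime P 10) (R B : ℕ)
    (hB : ∀ c, cnt (seqs W R) (fun l => mm k l ≡ c [MOD P]) ≤ B) (x : List ℕ) (c : ℕ) :
    cnt (seqs W R) (fun l => mm k (x :: l) ≡ c [MOD P]) ≤ B := by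
  classical
  by_cases he : ∃ l₀ ∈ seqs W R, mm k (x :: l₀) ≡ c [MOD P]
  · obtain ⟨l₀, hl₀, h₀⟩ := he
    refine (tl_cnt_mono ?_).trans (hB (mm k l₀))
    intro l hl h
    apply tl_cancel hP x _ (h.trans h₀.symm)
    have hlen := (hS k W hW R).2.1
    rw [(hlen l hl).1, (hlen l₀ hl₀).1]
  · rw [tl_cnt_eq, Finset.card_eq_zero.mpr]
    · exact Nat.zero_le _
    · rw [Finset.filter_eq_empty_iff]
      intro l hl h
      exact he ⟨l, hl, h⟩

/-- A residue class mod `P` has few words. -/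
private theorem tl_key (hS : SBase) {k : ℕ} {W : Finset (List ℕ)} (hW : Blk k W) {P h : ℕ}
    (hP : Nat.Coprime P 10) (hP2 : 10 ^ ((k + 3) * (2 * h)) ≤ P) (n : ℕ) :
    ∀ c, cnt (seqs W (h + n)) (fun l => mm k l ≡ c [MOD P]) ≤ W.card ^ n := by
  classical
  induction n with
  | zero =>
    intro c
    rw [tl_cnt_eq, pow_zero, Finset.card_le_one]
    intro a ha b hb
    rw [Finset.mem_filter] at ha hb
    obtain ⟨-, -, h3, h4⟩ := hS k W hW (h + 0)
    apply h4 a ha.1 b hb.1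
    have hab : mm k a ≡ mm k b [MOD P] := ha.2.trans hb.2.symm
    exact Nat.ModEq.eq_of_lt_of_lt hab (lt_of_lt_of_le (h3 a ha.1) hP2)
      (lt_of_lt_of_le (h3 b hb.1) hP2)
  | succ n ih =>
    intro c
    rw [pow_succ, mul_comm]
    apply tl_cnt_succ
    intro x _
    exact tl_step hS hW hP (h + n) _ ih x c

private theorem tl_pos (k : ℕ) (l : List (List ℕ)) : 0 < mm k (one k :: l) := by
  have h1 : 0 < val (one k) := by
    simp only [val, one, Nat.ofDigits_cons]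
    simp
  simp only [mm]
  omega

/-- The union bound. -/
private theorem tl_union (hS : SBase) {k j : ℕ} {W : Finset (List ℕ)} (hW : Blk k W)
    (hj : k + 3 = 3 * j) (h1 R : ℕ) :
    cnt (seqs W R) (fun l => ∃ p : ℕ, (10 ^ (2 * j)) ^ h1 ≤ p ∧ Nat.Coprime p 10 ∧
      p ^ 3 ∣ mm k (one k :: l)) ≤
    ∑ h ∈ Ico h1 (R + 1), (10 ^ (2 * j)) ^ (h + 1) * W.card ^ (R - h) := by
  classical
  obtain ⟨b, hb⟩ : ∃ b, b = 10 ^ (2 * j) := ⟨_, rfl⟩
  rw [← hb]
  have hj1 : 1 ≤ j := by have := hW.two; omega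
  have hb1 : 1 < b := by
    rw [hb]
    exact Nat.one_lt_pow (by omega) (by norm_num)
  have hK : ∀ m : ℕ, 10 ^ ((k + 3) * (2 * m)) = (b ^ m) ^ 3 := by
    intro m
    rw [hb, hj, ← pow_mul, ← pow_mul]
    congr 1
    ring
  have hlt : ∀ l ∈ seqs W R, mm k (one k :: l) < (b ^ (R + 1)) ^ 3 := by
    intro l hl
    rw [← hK]
    apply (hS k W hW (R + 1)).2.2.1
    simp only [seqs, Finset.mem_image, Finset.mem_product]
    exact ⟨(one k, l), ⟨hW.e0, hl⟩, rfl⟩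
  have hmain : ∀ h ∈ Ico h1 (R + 1), ∀ p ∈ range (b ^ (h + 1)),
      cnt (seqs W R) (fun l => b ^ h ≤ p ∧ Nat.Coprime p 10 ∧ p ^ 3 ∣ mm k (one k :: l)) ≤
        W.card ^ (R - h) := by
    intro h hh p _
    rw [Finset.mem_Ico] at hh
    by_cases hp : b ^ h ≤ p ∧ Nat.Coprime p 10
    · have hP : Nat.Coprime (p ^ 3) 10 := Nat.Coprime.pow_left _ hp.2
      have hP2 : 10 ^ ((k + 3) * (2 * h)) ≤ p ^ 3 := by
        rw [hK]
        exact Nat.pow_le_pow_left hp.1 3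
      have hk := tl_key hS hW hP hP2 (R - h)
      rw [show h + (R - h) = R by omega] at hk
      refine (tl_cnt_mono ?_).trans (tl_step hS hW hP R _ hk (one k) 0)
      intro l _ hl
      exact (Nat.modEq_zero_iff_dvd).mpr hl.2.2
    · rw [tl_cnt_eq, Finset.card_eq_zero.mpr]
      · exact Nat.zero_le _
      · rw [Finset.filter_eq_empty_iff]
        intro l _ h
        exact hp ⟨h.1, h.2.1⟩
  have hstep : cnt (seqs W R) (fun l => ∃ p : ℕ, b ^ h1 ≤ p ∧ Nat.Coprime p 10 ∧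
      p ^ 3 ∣ mm k (one k :: l)) ≤
      cnt (seqs W R) (fun l => ∃ h ∈ Ico h1 (R + 1), ∃ p ∈ range (b ^ (h + 1)),
        b ^ h ≤ p ∧ Nat.Coprime p 10 ∧ p ^ 3 ∣ mm k (one k :: l)) := by
    apply tl_cnt_mono
    rintro l hl ⟨p, hp1, hp2, hp3⟩
    have hp0 : p ≠ 0 := by
      rintro rfl
      have : 0 < b ^ h1 := Nat.pow_pos (by omega)
      omega
    have hlog1 : b ^ Nat.log b p ≤ p := Nat.pow_log_le_self b hp0
    have hlog2 : p < b ^ (Nat.log b p + 1) := Nat.lt_pow_succ_log_self hb1 p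
    have hle : p ^ 3 ≤ mm k (one k :: l) := Nat.le_of_dvd (tl_pos k l) hp3
    have hlt2 : p ^ 3 < (b ^ (R + 1)) ^ 3 := lt_of_le_of_lt hle (hlt l hl)
    have hlt3 : p < b ^ (R + 1) := lt_of_pow_lt_pow_left₀ 3 (Nat.zero_le _) hlt2
    have hR : Nat.log b p < R + 1 :=
      (Nat.pow_lt_pow_iff_right hb1).mp (lt_of_le_of_lt hlog1 hlt3)
    have hh1 : h1 ≤ Nat.log b p := Nat.le_log_of_pow_le hb1 hp1
    exact ⟨Nat.log b p, Finset.mem_Ico.mpr ⟨hh1, hR⟩, p, Finset.mem_range.mpr hlog2, hlog1, hp2,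
      hp3⟩
  refine hstep.trans ?_
  apply tl_cnt_union
  intro h hh
  refine (tl_cnt_union (range (b ^ (h + 1))) (seqs W R) _ (fun _ => W.card ^ (R - h))
    (hmain h hh)).trans ?_
  simp

/-- Row 4. -/
theorem tailP : SBase → STail := by
  intro hS k j W hW hj hcard ε hε
  obtain ⟨b, hb⟩ : ∃ b, b = 10 ^ (2 * j) := ⟨_, rfl⟩
  have hU := fun h1 R => tl_union hS hW hj h1 R
  rw [← hb] at hcard
  simp only [← hb] at hU
  have hb0 : 0 < b := by rw [hb]; positivity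
  have hbR : (0 : ℝ) < b := by exact_mod_cast hb0
  have hD : (b : ℝ) < W.card := by exact_mod_cast hcard
  have hD0 : (0 : ℝ) < W.card := hbR.trans hD
  obtain ⟨r, hr⟩ : ∃ r : ℝ, r = b / W.card := ⟨_, rfl⟩
  have hr0 : 0 < r := by rw [hr]; positivity
  have hr1 : r < 1 := by rw [hr, div_lt_one hD0]; exact hD
  have hr1' : 0 < 1 - r := by linarith
  obtain ⟨h1, hh1⟩ := exists_pow_lt_of_lt_one (show 0 < ε * (1 - r) / b by positivity) hr1
  refine ⟨b ^ h1, fun R => ?_⟩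
  have h2 : ((cnt (seqs W R) (fun l => ∃ p : ℕ, b ^ h1 ≤ p ∧ Nat.Coprime p 10 ∧
    p ^ 3 ∣ mm k (one k :: l)) : ℕ) : ℝ) ≤
      ((∑ h ∈ Ico h1 (R + 1), b ^ (h + 1) * W.card ^ (R - h) : ℕ) : ℝ) := by
    exact_mod_cast hU h1 R
  refine h2.trans ?_
  push_cast
  have h3 : ∀ h ∈ Ico h1 (R + 1), (b : ℝ) ^ (h + 1) * (W.card : ℝ) ^ (R - h) =
      (b * (W.card : ℝ) ^ R) * r ^ h := by
    intro h hh
    rw [Finset.mem_Ico] at hh
    have h4 : (W.card : ℝ) ^ R = (W.card : ℝ) ^ (R - h) * (W.card : ℝ) ^ h := by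
      rw [← pow_add]; congr 1; omega
    rw [h4, hr, div_pow]
    field_simp
    ring
  rw [Finset.sum_congr rfl h3, ← Finset.mul_sum]
  have h5 : ∑ i ∈ Ico h1 (R + 1), r ^ i ≤ r ^ h1 / (1 - r) :=
    geom_sum_Ico_le_of_lt_one hr0.le hr1
  have h6 : r ^ h1 / (1 - r) ≤ ε / b := by
    rw [div_le_div_iff₀ hr1' hbR]
    rw [lt_div_iff₀ hbR] at hh1
    exact hh1.le
  calc (b * (W.card : ℝ) ^ R) * ∑ i ∈ Ico h1 (R + 1), r ^ i
      ≤ (b * (W.card : ℝ) ^ R) * (ε / b) :=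
        mul_le_mul_of_nonneg_left (h5.trans h6) (by positivity)
    _ = ε * (W.card : ℝ) ^ R := by field_simp

end Pool.Agent.H72.VP
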