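import Pool.Agent.H72.VP.Stm

/-!
# Many blocks

The words of `n` digits at most five in which `d + a + c <= 9` and `d + b + c <= 9` for all
windows `d a b c` (padded by zeros at the end); there are at least `(19 / 4) ^ n` of them.
-/

set_option autoImplicit false

namespace Pool.Agent.H72.VP

/-- The weights, for the first three digits. -/
private def tbl : List ℕ := [
   1000, 1000, 1000, 1000, 1000, 909,
   988, 988, 988, 988, 903, 775,
   948, 948, 948, 879, 764, 606,
   871, 871, 821, 729, 591, 413,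
   748, 722, 658, 549, 396, 209,
   578, 545, 470, 350, 190, 0,
   981, 981, 981, 981, 896, 767,
   970, 970, 970, 970, 891, 767,
   933, 933, 933, 867, 757, 599,
   859, 859, 813, 723, 585, 409,
   723, 699, 637, 527, 374, 189,
   549, 517, 442, 322, 162, 0,
   922, 922, 922, 851, 733, 577,
   913, 913, 913, 846, 733, 577,
   882, 882, 882, 826, 725, 577,
   789, 789, 749, 668, 537, 364,
   649, 629, 572, 469, 317, 159,
   472, 443, 372, 251, 126, 0,
   809, 809, 758, 662, 525, 361,
   803, 803, 755, 662, 525, 361,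
   751, 751, 711, 628, 497, 341,
   656, 656, 626, 559, 442, 303,
   512, 497, 450, 357, 245, 123,
   335, 311, 248, 172, 86, 0,
   642, 616, 549, 442, 307, 156,
   621, 596, 531, 428, 297, 151,
   562, 542, 484, 390, 270, 137,
   460, 444, 397, 322, 225, 114,
   320, 312, 278, 227, 161, 83,
   159, 142, 116, 83, 44, 0,
   437, 403, 333, 235, 121, 0,
   409, 379, 314, 222, 114, 0,
   344, 320, 268, 190, 98, 0,
   246, 228, 193, 140, 73, 0,
   127, 118, 100, 73, 40, 0,
   0, 0, 0, 0, 0, 0]

private def hw (a b c : ℕ) : ℕ := tbl.getD (36 * a + 6 * b + c) 0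

private lemma hw_step : ∀ a < 6, ∀ b < 6, ∀ c < 6,
    19 * hw a b c ≤ 4 * ∑ d ∈ Finset.range 6,
      if d + a + c ≤ 9 ∧ d + b + c ≤ 9 then hw d a b else 0 := by
  decide +kernel

private lemma hw_le : ∀ a < 6, ∀ b < 6, ∀ c < 6, hw a b c ≤ 1000 := by
  decide +kernel

private lemma hw_zero : hw 0 0 0 = 1000 := by
  decide +kernel

/-- The digit number `i`, padded by zeros. -/
private def fd (i : ℕ) (y : List ℕ) : ℕ := y.getD i 0

private lemma fd_zero_cons (d : ℕ) (y : List ℕ) : fd 0 (d :: y) = d := rfl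

private lemma fd_succ_cons (i d : ℕ) (y : List ℕ) : fd (i + 1) (d :: y) = fd i y := rfl

private lemma fd_nil (i : ℕ) : fd i [] = 0 := by
  cases i <;> rfl

private lemma fd_replicate (i m : ℕ) : fd i (List.replicate m 0) = 0 := by
  induction m generalizing i with
  | zero => exact fd_nil i
  | succ m ih =>
    rw [List.replicate_succ]
    cases i with
    | zero => rfl
    | succ i => rw [fd_succ_cons, ih]

/-- The condition for a new front digit. -/
private def cond (d : ℕ) (y : List ℕ) : Prop :=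
  d + fd 0 y + fd 2 y ≤ 9 ∧ d + fd 1 y + fd 2 y ≤ 9

private instance (d : ℕ) (y : List ℕ) : Decidable (cond d y) := by
  unfold cond
  infer_instance

/-- The words. -/
private def TT : ℕ → Finset (List ℕ)
  | 0 => {[]}
  | n + 1 => ((Finset.range 6 ×ˢ TT n).filter fun t => cond t.1 t.2).image fun t => t.1 :: t.2

private lemma mem_TT_succ {n d : ℕ} {y : List ℕ} (hd : d ≤ 5) (hy : y ∈ TT n)
    (h : cond d y) : d :: y ∈ TT (n + 1) := by
  rw [TT, Finset.mem_image]
  refine ⟨(d, y), ?_, rfl⟩
  rw [Finset.mem_filter, Finset.mem_product, Finset.mem_range]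
  exact ⟨⟨by omega, hy⟩, h⟩

private lemma of_mem_TT_succ {n : ℕ} {x : List ℕ} (hx : x ∈ TT (n + 1)) :
    ∃ d y, x = d :: y ∧ d ≤ 5 ∧ y ∈ TT n ∧ cond d y := by
  rw [TT, Finset.mem_image] at hx
  obtain ⟨⟨d, y⟩, h, rfl⟩ := hx
  rw [Finset.mem_filter, Finset.mem_product, Finset.mem_range] at h
  exact ⟨d, y, rfl, by have := h.1.1; omega, h.1.2, h.2⟩

private lemma TT_len {n : ℕ} : ∀ x ∈ TT n, x.length = n := by
  induction n with
  | zero =>
    intro x hx
    rw [TT, Finset.mem_singleton] at hx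
    rw [hx]
    rfl
  | succ n ih =>
    intro x hx
    obtain ⟨d, y, rfl, -, hy, -⟩ := of_mem_TT_succ hx
    rw [List.length_cons, ih y hy]

private lemma TT_dig {n : ℕ} : ∀ x ∈ TT n, ∀ e ∈ x, e ≤ 5 := by
  induction n with
  | zero =>
    intro x hx e he
    rw [TT, Finset.mem_singleton] at hx
    rw [hx] at he
    simp at he
  | succ n ih =>
    intro x hx e he
    obtain ⟨d, y, rfl, hd, hy, -⟩ := of_mem_TT_succ hx
    rcases List.mem_cons.1 he with rfl | he
    · exact hd
    · exact ih y hy e he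

private lemma TT_fd {n : ℕ} (i : ℕ) (x : List ℕ) (hx : x ∈ TT n) : fd i x ≤ 5 := by
  induction n generalizing i x with
  | zero =>
    rw [TT, Finset.mem_singleton] at hx
    rw [hx, fd_nil]
    exact Nat.zero_le _
  | succ n ih =>
    obtain ⟨d, y, rfl, hd, hy, -⟩ := of_mem_TT_succ hx
    cases i with
    | zero => exact hd
    | succ i => exact ih i y hy

private lemma TT_pairs {n : ℕ} {x : List ℕ} (hx : x ∈ TT n) :
    fd 0 x + fd 1 x ≤ 9 ∧ fd 0 x + fd 2 x ≤ 9 ∧ fd 1 x + fd 2 x ≤ 9 := by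
  cases n with
  | zero =>
    rw [TT, Finset.mem_singleton] at hx
    rw [hx, fd_nil, fd_nil, fd_nil]
    omega
  | succ n =>
    obtain ⟨d, y, rfl, hd, hy, hc⟩ := of_mem_TT_succ hx
    rw [fd_zero_cons, fd_succ_cons, fd_succ_cons]
    refine ⟨by have := hc.1; omega, by have := hc.2; omega, ?_⟩
    cases n with
    | zero =>
      rw [TT, Finset.mem_singleton] at hy
      rw [hy, fd_nil, fd_nil]
      omega
    | succ n =>
      obtain ⟨d', y', rfl, hd', hy', hc'⟩ := of_mem_TT_succ hy
      rw [fd_zero_cons, fd_succ_cons]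
      have := hc'.1
      omega

private lemma convA {n : ℕ} : ∀ x ∈ TT n, ∀ p q r : ℕ, p + r ≤ 9 → fd 0 x + p + r ≤ 9 →
    fd 1 x + fd 0 x + q ≤ 9 → fd 2 x + fd 1 x + p ≤ 9 → ∀ e ∈ conv p q r x, e ≤ 9 := by
  induction n with
  | zero =>
    intro x hx p q r h0 h1 h2 h3 e he
    rw [TT, Finset.mem_singleton] at hx
    rw [hx] at he h1 h2 h3
    rw [fd_nil] at h1
    rw [fd_nil, fd_nil] at h2 h3
    simp only [conv, List.mem_cons, List.not_mem_nil, or_false] at he
    rcases he with rfl | rfl | rfl <;> omega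
  | succ n ih =>
    intro x hx p q r h0 h1 h2 h3 e he
    obtain ⟨d, y, rfl, hd, hy, hc⟩ := of_mem_TT_succ hx
    rw [fd_zero_cons] at h1
    rw [fd_zero_cons, fd_succ_cons] at h2
    rw [fd_succ_cons, fd_succ_cons] at h3
    rw [conv, List.mem_cons] at he
    rcases he with rfl | he
    · exact h1
    · refine ih y hy d p q (by omega) (by omega) (by omega) ?_ e he
      have := hc.2
      omega

/-- The entries of `conv` without the last three. -/
private def pre (p q r : ℕ) : List ℕ → List ℕ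
  | [] => []
  | d :: x => (d + p + r) :: pre d p q x

/-- The last three digits, the last one first. -/
private def lt (p q r : ℕ) : List ℕ → ℕ × ℕ × ℕ
  | [] => (p, q, r)
  | d :: x => lt d p q x

private lemma conv_eq (x : List ℕ) : ∀ p q r : ℕ, conv p q r x = pre p q r x ++
    [(lt p q r x).1 + (lt p q r x).2.2, (lt p q r x).2.1, (lt p q r x).1] := by
  induction x with
  | nil => intro p q r; rfl
  | cons d x ih => intro p q r; rw [conv, ih]; rfl

private lemma pre_append (x : List ℕ) (d : ℕ) : ∀ p q r : ℕ, pre p q r (x ++ [d]) =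
    pre p q r x ++ [d + (lt p q r x).1 + (lt p q r x).2.2] := by
  induction x with
  | nil => intro p q r; rfl
  | cons e x ih => intro p q r; rw [List.cons_append, pre, ih]; rfl

private lemma lt_append (x : List ℕ) (d : ℕ) : ∀ p q r : ℕ, lt p q r (x ++ [d]) =
    (d, (lt p q r x).1, (lt p q r x).2.1) := by
  induction x with
  | nil => intro p q r; rfl
  | cons e x ih => intro p q r; rw [List.cons_append, lt, ih]; rfl

private lemma preB {n : ℕ} : ∀ x ∈ TT n, (∀ e ∈ pre 0 0 0 x.reverse, e ≤ 9) ∧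
    lt 0 0 0 x.reverse = (fd 0 x, fd 1 x, fd 2 x) := by
  induction n with
  | zero =>
    intro x hx
    rw [TT, Finset.mem_singleton] at hx
    rw [hx]
    refine ⟨?_, rfl⟩
    intro e he
    simp [pre] at he
  | succ n ih =>
    intro x hx
    obtain ⟨d, y, rfl, hd, hy, hc⟩ := of_mem_TT_succ hx
    obtain ⟨h1, h2⟩ := ih y hy
    rw [List.reverse_cons, pre_append, lt_append, h2]
    refine ⟨?_, rfl⟩
    intro e he
    rw [List.mem_append, List.mem_singleton] at he
    rcases he with he | rfl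
    · exact h1 e he
    · exact hc.1

private lemma TT_blk (k : ℕ) : Blk (k + 2) (TT (k + 2)) where
  two := by omega
  len := TT_len
  dig := fun x hx e he => (TT_dig x hx e he).trans (by norm_num)
  cA := by
    intro x hx
    obtain ⟨h1, h2, h3⟩ := TT_pairs hx
    have h4 := TT_fd 0 x hx
    exact convA x hx 0 0 0 (by omega) (by omega) (by omega) (by omega)
  cB := by
    intro x hx e he
    obtain ⟨h1, h2, h3⟩ := TT_pairs hx
    obtain ⟨h4, h5⟩ := preB x hx
    have h6 := TT_fd 0 x hx
    have h7 := TT_fd 1 x hx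
    rw [conv_eq, h5] at he
    simp only [List.mem_append, List.mem_cons, List.not_mem_nil, or_false] at he
    rcases he with he | rfl | rfl | rfl
    · exact h4 e he
    · exact h2
    · omega
    · omega
  zero := zeroT (k + 2)
  e0 := by
    show 1 :: List.replicate (k + 2 - 1) 0 ∈ TT (k + 2)
    exact oneT (k + 1)
  e1 := by
    show 0 :: 1 :: List.replicate (k + 2 - 2) 0 ∈ TT (k + 2)
    refine mem_TT_succ (by omega) (oneT k) ?_
    unfold cond
    rw [fd_zero_cons, fd_succ_cons, fd_succ_cons, fd_replicate, fd_replicate]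
    omega
where
  zeroT : ∀ n : ℕ, List.replicate n 0 ∈ TT n
    | 0 => by rw [TT]; simp
    | n + 1 => by
      rw [List.replicate_succ]
      refine mem_TT_succ (by omega) (zeroT n) ?_
      unfold cond
      rw [fd_replicate, fd_replicate, fd_replicate]
      omega
  oneT : ∀ n : ℕ, 1 :: List.replicate n 0 ∈ TT (n + 1) := by
    intro n
    refine mem_TT_succ (by omega) (zeroT n) ?_
    unfold cond
    rw [fd_replicate, fd_replicate, fd_replicate]
    omega

/-- The weighted number of words. -/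
private def SS (n : ℕ) : ℕ := ∑ x ∈ TT n, hw (fd 0 x) (fd 1 x) (fd 2 x)

private lemma SS_succ (n : ℕ) : SS (n + 1) = ∑ y ∈ TT n, ∑ d ∈ Finset.range 6,
    if d + fd 0 y + fd 2 y ≤ 9 ∧ d + fd 1 y + fd 2 y ≤ 9 then hw d (fd 0 y) (fd 1 y) else 0 := by
  rw [SS, TT, Finset.sum_image, Finset.sum_filter, Finset.sum_product_right]
  · rfl
  · rintro ⟨a, x⟩ _ ⟨b, y⟩ _ h
    simp only [List.cons.injEq] at h
    rw [h.1, h.2]

private lemma SS_step (n : ℕ) : 19 * SS n ≤ 4 * SS (n + 1) := by
  rw [SS_succ, SS, Finset.mul_sum, Finset.mul_sum]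
  refine Finset.sum_le_sum fun y hy => ?_
  exact hw_step _ (by have := TT_fd 0 y hy; omega) _ (by have := TT_fd 1 y hy; omega) _
    (by have := TT_fd 2 y hy; omega)

private lemma SS_ge (n : ℕ) : 19 ^ n * 1000 ≤ 4 ^ n * SS n := by
  induction n with
  | zero =>
    rw [SS, TT, Finset.sum_singleton, fd_nil, fd_nil, fd_nil, hw_zero]
    norm_num
  | succ n ih =>
    calc 19 ^ (n + 1) * 1000 = 19 * (19 ^ n * 1000) := by ring
      _ ≤ 19 * (4 ^ n * SS n) := Nat.mul_le_mul_left _ ih
      _ = 4 ^ n * (19 * SS n) := by ring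
      _ ≤ 4 ^ n * (4 * SS (n + 1)) := Nat.mul_le_mul_left _ (SS_step n)
      _ = 4 ^ (n + 1) * SS (n + 1) := by ring

private lemma SS_le (n : ℕ) : SS n ≤ (TT n).card * 1000 := by
  rw [SS, ← smul_eq_mul, ← Finset.sum_const]
  refine Finset.sum_le_sum fun y hy => ?_
  exact hw_le _ (by have := TT_fd 0 y hy; omega) _ (by have := TT_fd 1 y hy; omega) _
    (by have := TT_fd 2 y hy; omega)

private lemma TT_card (n : ℕ) : 19 ^ n ≤ 4 ^ n * (TT n).card := by
  have h1 := SS_ge n
  have h2 := Nat.mul_le_mul_left (4 ^ n) (SS_le n)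
  have h3 : 19 ^ n * 1000 ≤ (4 ^ n * (TT n).card) * 1000 := by
    calc 19 ^ n * 1000 ≤ 4 ^ n * ((TT n).card * 1000) := h1.trans h2
      _ = (4 ^ n * (TT n).card) * 1000 := by ring
  exact Nat.le_of_mul_le_mul_right h3 (by norm_num)

theorem wordP : SWord := by
  refine ⟨80, by norm_num, TT (235 + 2), TT_blk 235, ?_⟩
  have h1 := TT_card (235 + 2)
  have h2 : 4 ^ (235 + 2) * 10 ^ (2 * 80) < 19 ^ (235 + 2) := by norm_num
  exact lt_of_mul_lt_mul_left (h2.trans_le h1) (Nat.zero_le _)

end Pool.Agent.H72.VP
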